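import Pool.Agent.Lib.MP_c7af3c_ag.SHARP.Base54

/-!
# MP_c7af3c_ag, project SHARP: summing local inequalities over all places (helper26)
-/

set_option autoImplicit false

namespace Pool.Agent.Sharp

open WithZero Pool.Agent.Gen

section
variable {L : Type} [Field L] (S : PlaceSys L) {n : ℕ} (x y : Fin (n + 1) → L)

theorem log_pow' (a : ℤᵐ⁰) (k : ℕ) : log (a ^ k) = (k : ℤ) * log a := by
  rw [log_pow, nsmul_eq_mul]

theorem glob_sum' (hS : S.IsProd) {j0 : Fin (n + 1)} (hj0 : x j0 = 1) (q : S.V → ℤᵐ⁰)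
    (hq : ∀ p, q p ≠ 0) (hf2 : {p | q p ≠ 1}.Finite)
    (B : S.V → ℕ) (hB : {p | B p ≠ 0}.Finite) (μ g : L) (hμ : μ ≠ 0)
    (hg : g ≠ 0) (Dd t A a b e : ℕ)
    (h : ∀ p, S.v p μ * S.mx x p ^ Dd * q p ^ t ≤
      exp (B p : ℤ) ^ A * S.mx x p ^ a * q p ^ b * S.v p g ^ e) :
    (Dd : ℤ) * S.ht x + t * ∑ᶠ p, (S.w p : ℤ) * log (q p) ≤
      A * tot S B + a * S.ht x + b * ∑ᶠ p, (S.w p : ℤ) * log (q p) := by
  classical
  have hx : x ≠ 0 := fun h0 => by rw [h0] at hj0; exact zero_ne_one hj0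
  have hf1 := S.finite_mx x hS.fin hx
  have hf3 := hS.fin _ hμ
  have hf4 := hS.fin _ hg
  set T : Finset S.V := hf1.toFinset ∪ hf2.toFinset ∪ hf3.toFinset ∪ hf4.toFinset ∪
    hB.toFinset with hT
  have hmem : ∀ p, p ∉ T → S.mx x p = 1 ∧ q p = 1 ∧ S.v p μ = 1 ∧ S.v p g = 1 ∧
      B p = 0 := by
    intro p hp
    rw [hT] at hp
    simp only [Finset.mem_union, Set.Finite.mem_toFinset, Set.mem_ofPred_eq, not_or, not_not] at hp
    exact ⟨hp.1.1.1.1, hp.1.1.1.2, hp.1.1.2, hp.1.2, hp.2⟩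
  have key : ∀ f : S.V → ℤ, (∀ p, p ∉ T → f p = 0) →
      ∑ᶠ p, (S.w p : ℤ) * f p = ∑ p ∈ T, (S.w p : ℤ) * f p := by
    intro f hf
    refine finsum_eq_sum_of_support_subset _ fun p hp => ?_
    by_contra hc
    simp only [Function.mem_support, ne_eq, mul_eq_zero, not_or] at hp
    exact hp.2 (hf p hc)
  have e1 : S.ht x = ∑ p ∈ T, (S.w p : ℤ) * log (S.mx x p) :=
    key _ fun p hp => by rw [(hmem p hp).1, log_one]
  have e2 : ∑ᶠ p, (S.w p : ℤ) * log (q p) = ∑ p ∈ T, (S.w p : ℤ) * log (q p) :=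
    key _ fun p hp => by rw [(hmem p hp).2.1, log_one]
  have e3 : (0 : ℤ) = ∑ p ∈ T, (S.w p : ℤ) * log (S.v p μ) := by
    rw [← hS.prod μ hμ]
    exact key _ fun p hp => by rw [(hmem p hp).2.2.1, log_one]
  have e4 : (0 : ℤ) = ∑ p ∈ T, (S.w p : ℤ) * log (S.v p g) := by
    rw [← hS.prod g hg]
    exact key _ fun p hp => by rw [(hmem p hp).2.2.2.1, log_one]
  have e5 : tot S B = ∑ p ∈ T, (S.w p : ℤ) * (B p : ℤ) :=
    key _ fun p hp => by rw [(hmem p hp).2.2.2.2]; rfl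
  have hloc : ∀ p, log (S.v p μ) + (Dd : ℤ) * log (S.mx x p) + t * log (q p) ≤
      A * (B p : ℤ) + a * log (S.mx x p) + b * log (q p) + e * log (S.v p g) := by
    intro p
    have h0 := h p
    have n1 : S.v p μ ≠ 0 := (map_ne_zero _).2 hμ
    have n2 : S.v p g ≠ 0 := (map_ne_zero _).2 hg
    have n3 : S.mx x p ≠ 0 := S.mx_ne_zero x hx p
    have n4 : q p ≠ 0 := hq p
    have n5 : (exp (B p : ℤ) : ℤᵐ⁰) ≠ 0 := exp_ne_zero
    have h1 := (log_le_log (mul_ne_zero (mul_ne_zero n1 (pow_ne_zero _ n3)) (pow_ne_zero _ n4))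
      (mul_ne_zero (mul_ne_zero (mul_ne_zero (pow_ne_zero _ n5) (pow_ne_zero _ n3))
        (pow_ne_zero _ n4)) (pow_ne_zero _ n2))).2 h0
    rw [log_mul (mul_ne_zero n1 (pow_ne_zero _ n3)) (pow_ne_zero _ n4),
      log_mul n1 (pow_ne_zero _ n3),
      log_mul (mul_ne_zero (mul_ne_zero (pow_ne_zero _ n5) (pow_ne_zero _ n3))
        (pow_ne_zero _ n4)) (pow_ne_zero _ n2),
      log_mul (mul_ne_zero (pow_ne_zero _ n5) (pow_ne_zero _ n3)) (pow_ne_zero _ n4),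
      log_mul (pow_ne_zero _ n5) (pow_ne_zero _ n3), log_pow', log_pow', log_pow', log_pow',
      log_pow', log_pow', log_exp] at h1
    exact h1
  have hsum := Finset.sum_le_sum fun p (_ : p ∈ T) =>
    mul_le_mul_of_nonneg_left (hloc p) (Int.natCast_nonneg (S.w p))
  simp only [mul_add, Finset.sum_add_distrib] at hsum
  have c1 : ∀ (k : ℤ) (f : S.V → ℤ), ∑ p ∈ T, (S.w p : ℤ) * (k * f p) =
      k * ∑ p ∈ T, (S.w p : ℤ) * f p := by
    intro k f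
    rw [Finset.mul_sum]
    exact Finset.sum_congr rfl fun p _ => by ring
  rw [c1, c1, c1, c1, c1, c1, ← e3, ← e4, ← e1, ← e2, ← e5] at hsum
  linarith

theorem glob_sum (hS : S.IsProd) {j0 : Fin (n + 1)} (hj0 : x j0 = 1) {i1 j1 : Fin (n + 1)}
    (hp : plu x y i1 j1 ≠ 0) (B : S.V → ℕ) (hB : {p | B p ≠ 0}.Finite) (μ g : L) (hμ : μ ≠ 0)
    (hg : g ≠ 0) (Dd t A a b e : ℕ)
    (h : ∀ p, S.v p μ * S.mx x p ^ Dd * mxP S x y p ^ t ≤
      exp (B p : ℤ) ^ A * S.mx x p ^ a * mxP S x y p ^ b * S.v p g ^ e) :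
    (Dd : ℤ) * S.ht x + t * hL S x y ≤ A * tot S B + a * S.ht x + b * hL S x y :=
  glob_sum' S x hS hj0 (mxP S x y) (mxP_ne_zero S x y hp) (finite_mxP S x y hS.fin hp) B hB
    μ g hμ hg Dd t A a b e h

/-- the case without a line -/
theorem glob_sum0 (hS : S.IsProd) {j0 : Fin (n + 1)} (hj0 : x j0 = 1)
    (B : S.V → ℕ) (hB : {p | B p ≠ 0}.Finite) (μ : L) (hμ : μ ≠ 0) (Dd A a : ℕ)
    (h : ∀ p, S.v p μ * S.mx x p ^ Dd ≤ exp (B p : ℤ) ^ A * S.mx x p ^ a) :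
    (Dd : ℤ) * S.ht x ≤ A * tot S B + a * S.ht x := by
  have h1 := glob_sum' S x hS hj0 (fun _ => 1) (fun _ => one_ne_zero) (by simp) B hB
    μ 1 hμ one_ne_zero Dd 0 A a 0 0 (fun p => by simpa using h p)
  simpa using h1

theorem mx_eq_of_le {p : S.V} {iv : Fin (n + 1)} (h : S.v p (x iv) = S.mx x p) (j : Fin (n + 1)) :
    S.v p (x j) ≤ S.v p (x iv) := by
  rw [h]
  exact S.le_mx x p j

end

end Pool.Agent.Sharp
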