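import Pool.Agent.Lib.MP_c7af3c_ag.SHARP.H26.Pair

/-!
# MP_c7af3c_ag, project SHARP: the height inequality of a line (helper26)
-/

set_option autoImplicit false
set_option linter.unusedSectionVars false

namespace Pool.Agent.Sharp

open MvPolynomial WithZero Pool.Agent.Gen

section line
variable {L : Type} [Field L] {n c : ℕ} {d : Fin c → ℕ} (D : DSys L n c d)
  (x y : Fin (n + 1) → L)

theorem eval_hT (i j k : Fin (n + 1)) : eval x (hT x y i j k) = 0 := by
  unfold hT plu
  simp only [map_add, map_sub, map_mul, eval_X, eval_C]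
  ring

theorem CB_hT (S : PlaceSys L) (p : S.V) (i j k : Fin (n + 1)) :
    CB (S.v p) (hT x y i j k) (mxP S x y p) :=
  CB.add _ (CB.sub _ ((CB_CX _ _ _).mono _ (le_mxP S x y p i j))
    ((CB_CX _ _ _).mono _ (le_mxP S x y p i k))) ((CB_CX _ _ _).mono _ (le_mxP S x y p j k))

/-- the identity behind the reduction of the columns transversal to the line -/
theorem lf_eq {j0 : Fin (n + 1)} (hj0 : x j0 = 1) (i0 i1 j1 : Fin (n + 1)) :
    plu x y i1 j1 • lf x j0 i0 = (hT x y i1 j1 i0 + (-x i0) • hT x y i1 j1 j0) +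
      plu x y j0 i0 • (C (x i1) * X j1 - C (x j1) * X i1) := by
  unfold lf hT plu
  simp only [smul_eq_C_mul, map_sub, map_mul, map_neg, hj0, one_mul]
  ring

/-- the columns of the line inequality -/
noncomputable def colL (j0 i0 : Fin (n + 1)) {w κ t : ℕ} (W : Fin w → Fin (n + 1) × Fin (n + 1))
    (A : Fin κ → Fin c → MvPolynomial (Fin (n + 1)) L)
    (h : Fin κ → Fin (n + 1) × Fin (n + 1) × Fin (n + 1))
    (A2 : Fin t → Fin c → MvPolynomial (Fin (n + 1)) L) :
    (Unit ⊕ Fin w) ⊕ (Fin κ ⊕ Fin t) → Fin (n + 1) → L :=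
  Sum.elim (Sum.elim (fun _ => x) fun a => WT D x (W a).1 (W a).2)
    (Sum.elim (fun j => VT D x (mulT (A j) (hT x y (h j).1 (h j).2.1 (h j).2.2)))
      fun j => VT D x (mulT (A2 j) (lf x j0 i0)))

/-- module HLINE -/
theorem hline {j0 i0 : Fin (n + 1)} (hj0 : x j0 = 1) (hi0 : plu x y j0 i0 ≠ 0)
    (h0 : ∀ m, eval x (D.F m) = 0)
    (S : PlaceSys L) (hS : S.IsProd) (B : S.V → ℕ) (hB : BD S D B) {w κ t : ℕ}
    (W : Fin w → Fin (n + 1) × Fin (n + 1))
    (A : Fin κ → Fin c → MvPolynomial (Fin (n + 1)) L) (hA : ∀ j, Adm d (A j))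
    (hA' : ∀ p j m, CB (S.v p) (A j m) 1)
    (h : Fin κ → Fin (n + 1) × Fin (n + 1) × Fin (n + 1))
    (A2 : Fin t → Fin c → MvPolynomial (Fin (n + 1)) L) (hA2 : ∀ j, Adm d (A2 j))
    (hA2' : ∀ p j m, CB (S.v p) (A2 j m) 1)
    (hli : LinearIndependent L (colL D x y j0 i0 W A h A2))
    (hsp : ∀ (b : Fin t) (i j k : Fin (n + 1)), VT D x (mulT (A2 b) (hT x y i j k)) ∈
      Submodule.span L (Set.range fun a : (Unit ⊕ Fin w) ⊕ Fin κ =>
        colL D x y j0 i0 W A h A2 (Sum.elim Sum.inl (fun k => Sum.inr (Sum.inl k)) a)))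
    (hcard : 1 + w + κ + t + c = n + 1) :
    ((∑ m, d m : ℕ) : ℤ) * S.ht x + t * hL S x y ≤
      (2 * n + 2) * tot S B + (1 + w + κ + 2 * t + c) * S.ht x + κ * hL S x y := by
  classical
  have hx : x ≠ 0 := fun h0 => by rw [h0] at hj0; exact zero_ne_one hj0
  have hker : ∀ a m, ∑ p, eval x (pderiv p (D.F m)) * colL D x y j0 i0 W A h A2 a p = 0 := by
    rintro ((_ | a) | (j | j)) m
    · exact grad_x D x h0 m
    · exact grad_WT D x h0 _ _ m
    · exact grad_mulT D x h0 (hA j) (hom_hT x y _ _ _) (eval_hT x y _ _ _) m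
    · exact grad_mulT D x h0 (hA2 j) (hom_lf x j0 _) (eval_lf x hj0 _) m
  have hc : Fintype.card ((Unit ⊕ Fin w) ⊕ (Fin κ ⊕ Fin t)) + c = n + 1 := by
    simp only [Fintype.card_sum, Fintype.card_fin, Fintype.card_unit]
    omega
  have e : ((Unit ⊕ Fin w) ⊕ (Fin κ ⊕ Fin t)) ⊕ Fin c ≃ Fin (n + 1) := by
    refine Fintype.equivOfCardEq ?_
    rw [Fintype.card_sum, Fintype.card_fin, hc, Fintype.card_fin]
  obtain ⟨μ, hμ, hdet⟩ := detU D x h0 (colL D x y j0 i0 W A h A2) hli hker hc hj0 e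
  -- the local inequality
  have hloc : ∀ p, S.v p μ * S.mx x p ^ (∑ m, d m) * mxP S x y p ^ t ≤
      exp (B p : ℤ) ^ (2 * n + 2) * S.mx x p ^ (1 + w + κ + 2 * t + c) *
        mxP S x y p ^ κ * S.v p (plu x y j0 i0) ^ t := by
    intro p
    obtain ⟨iv, hiv⟩ := S.exists_mx x p
    have hs0 : S.mx x p ≠ 0 := S.mx_ne_zero x hx p
    have hs1 : 1 ≤ S.mx x p := S.one_le_mx x hj0 p
    have hiv0 : x iv ≠ 0 := fun h => hs0 (by rw [← hiv, h, map_zero])
    have hle : ∀ j, S.v p (x j) ≤ S.v p (x iv) := fun j => by rw [hiv]; exact S.le_mx x p j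
    have h1 : 1 ≤ S.v p (x iv) := by rw [hiv]; exact hs1
    obtain ⟨i1, j1, hij⟩ := exists_mxP S x y p
    have hq0 : mxP S x y p ≠ 0 := mxP_ne_zero S x y hi0 p
    have hpl : plu x y i1 j1 ≠ 0 := fun h => hq0 (by rw [← hij, h, map_zero])
    set M : ℤᵐ⁰ := exp (B p : ℤ) with hMdef
    have hM : 1 ≤ M := by
      rw [hMdef, ← exp_zero]
      exact WithZero.exp_le_exp.2 (by positivity)
    have hdel : ∀ m I, I.degree = d m → ∀ f, S.v p f ≤ 1 → S.v p (D.del m I f) ≤ M :=
      fun m I hI f hf => hB.del p m I hI f hf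
    have hF : ∀ m, CB (S.v p) (D.F m) M := fun m I => hB.F p m I
    choose NW hNW hNW' using fun a : Fin w =>
      WT_red D x hM hdel hF hiv0 hle (W a).1 (W a).2
    choose NK hNK hNK' using fun j : Fin κ =>
      VT_red D x hdel hiv0 hle (hA j) (hA' p j) (hom_hT x y (h j).1 (h j).2.1 (h j).2.2)
        (CB_hT x y S p (h j).1 (h j).2.1 (h j).2.2)
    have hm1 : (C (x i1) * X j1 - C (x j1) * X i1 : MvPolynomial (Fin (n + 1)) L).IsHomogeneous 1 :=
      (hom_CX _ _).sub (hom_CX _ _)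
    choose NT hNT hNT' using fun j : Fin t =>
      VT_red D x hdel hiv0 hle (hA2 j) (hA2' p j) hm1
        (CB.sub (S.v p) ((CB_CX (S.v p) (x i1) j1).mono _ (hle i1))
          ((CB_CX (S.v p) (x j1) i1).mono _ (hle j1)))
    set τ : L := plu x y j0 i0 / plu x y i1 j1 with hτ
    have hx1 : x - (1 * x iv) • ((x iv)⁻¹ • x) = 0 := by
      rw [one_mul, smul_smul, mul_inv_cancel₀ hiv0, one_smul, sub_self]
    -- the reduction of the transversal columns
    have hred : ∀ b : Fin t, VT D x (mulT (A2 b) (lf x j0 i0)) - (τ * x iv) • NT b ∈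
        Submodule.span L (Set.range fun a : (Unit ⊕ Fin w) ⊕ Fin κ =>
        colL D x y j0 i0 W A h A2 (Sum.elim Sum.inl (fun k => Sum.inr (Sum.inl k)) a)) := by
      intro b
      have e1 : VT D x (mulT (A2 b) (lf x j0 i0)) = (plu x y i1 j1)⁻¹ •
          (VT D x (mulT (A2 b) (hT x y i1 j1 i0)) +
            (-x i0) • VT D x (mulT (A2 b) (hT x y i1 j1 j0)) + plu x y j0 i0 •
              VT D x (mulT (A2 b) (C (x i1) * X j1 - C (x j1) * X i1))) := by
        have e2 : lf x j0 i0 = (plu x y i1 j1)⁻¹ • ((hT x y i1 j1 i0 +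
            (-x i0) • hT x y i1 j1 j0) +
            plu x y j0 i0 • (C (x i1) * X j1 - C (x j1) * X i1)) := by
          rw [← lf_eq x y hj0, smul_smul, inv_mul_cancel₀ hpl, one_smul]
        conv_lhs => rw [e2]
        rw [VT_mulT_smul, VT_mulT_add, VT_mulT_add, VT_mulT_smul, VT_mulT_smul]
      have e3 : VT D x (mulT (A2 b) (lf x j0 i0)) - (τ * x iv) • NT b =
          (plu x y i1 j1)⁻¹ • VT D x (mulT (A2 b) (hT x y i1 j1 i0)) +
          (-((plu x y i1 j1)⁻¹ * x i0)) • VT D x (mulT (A2 b) (hT x y i1 j1 j0)) +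
          τ • (VT D x (mulT (A2 b) (C (x i1) * X j1 - C (x j1) * X i1)) - x iv • NT b) := by
        rw [e1, hτ, div_eq_inv_mul]
        simp only [smul_add, smul_sub, smul_smul, mul_neg]
        abel_nf
      rw [e3]
      refine Submodule.add_mem _ (Submodule.add_mem _ (Submodule.smul_mem _ _ (hsp b _ _ _))
        (Submodule.smul_mem _ _ (hsp b _ _ _))) (Submodule.smul_mem _ _ ?_)
      refine Submodule.span_mono ?_ (hNT b)
      rintro _ rfl
      exact ⟨Sum.inl (Sum.inl ()), rfl⟩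
    have key := local_bound D x (S.v p) M hdel hiv0 hle (colL D x y j0 i0 W A h A2)
      (Sum.inl (Sum.inl ())) rfl
      (Sum.elim (Sum.elim (fun _ => 0) fun _ => 1) (Sum.elim (fun _ => 1) fun _ => 2))
      (Sum.elim (Sum.elim (fun _ => (x iv)⁻¹ • x) NW) (Sum.elim NK NT))
      (Sum.elim (fun _ => 1) (Sum.elim (fun _ => 1) fun _ => τ))
      (Sum.elim (Sum.elim (fun _ => 1) fun _ => M * M)
        (Sum.elim (fun _ => mxP S x y p * M) fun _ => S.v p (x iv) * M)) ?_ ?_ e μ (hdet iv)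
    · rw [hiv] at key
      simp only [Fintype.prod_sum_type, Sum.elim_inl, Sum.elim_inr, map_one, one_mul,
        Finset.prod_const_one, Finset.prod_const, Finset.card_univ, Fintype.card_fin] at key
      have hτq : S.v p τ * mxP S x y p = S.v p (plu x y j0 i0) := by
        rw [hτ, map_div₀, ← hij, div_mul_cancel₀ _ ((map_ne_zero _).2 hpl)]
      have key2 := mul_le_mul' key (le_refl (mxP S x y p ^ t))
      refine key2.trans ?_
      calc S.mx x p ^ (n + 1) * ((M * M) ^ w * ((mxP S x y p * M) ^ κ *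
            (S.v p τ * (S.mx x p * M)) ^ t)) * M ^ c * mxP S x y p ^ t
          = M ^ (2 * w + κ + t + c) * S.mx x p ^ (n + 1 + t) * mxP S x y p ^ κ *
              (S.v p τ * mxP S x y p) ^ t := by
            simp only [mul_pow, ← pow_mul, ← pow_two]
            have e1 : M ^ (2 * w + κ + t + c) = M ^ (2 * w) * M ^ κ * M ^ t * M ^ c := by
              rw [pow_add, pow_add, pow_add]
            have e2 : S.mx x p ^ (n + 1 + t) =
              S.mx x p ^ (n + 1) * S.mx x p ^ t := by rw [pow_add]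
            rw [e1, e2]
            simp only [mul_assoc, mul_left_comm, mul_comm]
        _ ≤ _ := by
            rw [hτq]
            refine mul_le_mul' (mul_le_mul' (mul_le_mul' (pow_le_pow_right' hM ?_)
              (pow_le_pow_right' hs1 ?_)) le_rfl) le_rfl
            · omega
            · omega
    · rintro ((_ | a) | (j | j))
      · change x - (1 * x iv) • ((x iv)⁻¹ • x) ∈ _
        rw [hx1]
        exact Submodule.zero_mem _
      · change WT D x (W a).1 (W a).2 - (1 * x iv) • NW a ∈ _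
        rw [one_mul]
        refine Submodule.span_mono ?_ (hNW a)
        rintro _ rfl
        exact ⟨Sum.inl (Sum.inl ()), Nat.zero_lt_one, rfl⟩
      · change VT D x (mulT (A j) (hT x y (h j).1 (h j).2.1 (h j).2.2)) -
          (1 * x iv) • NK j ∈ _
        rw [one_mul]
        refine Submodule.span_mono ?_ (hNK j)
        rintro _ rfl
        exact ⟨Sum.inl (Sum.inl ()), Nat.zero_lt_one, rfl⟩
      · change VT D x (mulT (A2 j) (lf x j0 i0)) - (τ * x iv) • NT j ∈ _
        refine Submodule.span_mono ?_ (hred j)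
        rintro _ ⟨((_ | a) | k), rfl⟩
        · exact ⟨Sum.inl (Sum.inl ()), Nat.zero_lt_two, rfl⟩
        · exact ⟨Sum.inl (Sum.inr a), Nat.one_lt_two, rfl⟩
        · exact ⟨Sum.inr (Sum.inl k), Nat.one_lt_two, rfl⟩
    · rintro ((_ | a) | (j | j)) b
      · exact v_smul_le x hiv0 hle b
      · exact hNW' a b
      · exact hNK' j b
      · exact hNT' j b
  have h := glob_sum S x y hS hj0 hi0 B hB.fin μ (plu x y j0 i0) hμ hi0 (∑ m, d m) t
    (2 * n + 2) (1 + w + κ + 2 * t + c) κ t hloc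
  push_cast at h ⊢
  linarith

end line

end Pool.Agent.Sharp
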