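import Pool.Agent.Lib.MP_c7af3c_ag.SHARP.H26.Size
import Pool.Agent.Lib.MP_c7af3c_ag.SHARP.H26.Glob

/-!
# MP_c7af3c_ag, project SHARP: the height inequality from pairs (helper26)
-/

set_option autoImplicit false
set_option linter.unusedSectionVars false

namespace Pool.Agent.Sharp

open MvPolynomial WithZero Pool.Agent.Gen

section ker
variable {L : Type} [Field L] {n c : ℕ} {d : Fin c → ℕ} (D : DSys L n c d)
  (x : Fin (n + 1) → L)

theorem grad_x (h0 : ∀ m, eval x (D.F m) = 0) (m : Fin c) :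
    ∑ p, eval x (pderiv p (D.F m)) * x p = 0 := by
  have h := (D.hom m).sum_X_mul_pderiv
  have h1 := congrArg (eval x) h
  rw [map_sum, map_nsmul, h0, smul_zero] at h1
  rw [← h1]
  refine Finset.sum_congr rfl fun p _ => ?_
  rw [map_mul, eval_X, mul_comm]

theorem grad_VT (h0 : ∀ m, eval x (D.F m) = 0) (G : Fin c → MvPolynomial (Fin (n + 1)) L)
    (hG : ∀ m, (G m).IsHomogeneous (d m)) (m : Fin c) :
    ∑ p, eval x (pderiv p (D.F m)) * VT D x G p = - eval x (G m) := by
  rw [VT_apply]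
  simp only [Finset.sum_apply, Finset.mul_sum]
  rw [Finset.sum_comm]
  have h : ∀ m', ∑ p, eval x (pderiv p (D.F m)) * D.V x m' (G m') p =
      if m' = m then - eval x (G m') else 0 := fun m' =>
    Pool.Agent.Gen.H12.reln L n c d D x h0 m' m (G m') (hG m')
  rw [Finset.sum_congr rfl fun m' _ => h m']
  simp

theorem hom_mulT {A : Fin c → MvPolynomial (Fin (n + 1)) L} (hA : Adm d A)
    {l : MvPolynomial (Fin (n + 1)) L} (hl : l.IsHomogeneous 1) (m : Fin c) :
    (mulT A l m).IsHomogeneous (d m) := by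
  intro I hI
  have h := deg_mulT hA hl m I (mem_support_iff.2 hI)
  rw [Finsupp.degree_eq_weight_one] at h
  exact h

theorem hom_XF' (m : Fin c) (p q : Fin (n + 1)) :
    (X q * pderiv p (D.F m)).IsHomogeneous (d m) := by
  intro I hI
  have h := deg_XF D m p q I (mem_support_iff.2 hI)
  rw [Finsupp.degree_eq_weight_one] at h
  exact h

theorem grad_mulT (h0 : ∀ m, eval x (D.F m) = 0) {A : Fin c → MvPolynomial (Fin (n + 1)) L}
    (hA : Adm d A) {l : MvPolynomial (Fin (n + 1)) L} (hl : l.IsHomogeneous 1)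
    (hlx : eval x l = 0) (m : Fin c) :
    ∑ p, eval x (pderiv p (D.F m)) * VT D x (mulT A l) p = 0 := by
  rw [grad_VT D x h0 _ (fun m => hom_mulT hA hl m)]
  unfold mulT
  rw [map_mul, hlx, mul_zero, neg_zero]

theorem grad_WT (h0 : ∀ m, eval x (D.F m) = 0) (p q : Fin (n + 1)) (m : Fin c) :
    ∑ a, eval x (pderiv a (D.F m)) * WT D x p q a = 0 := by
  unfold WT
  simp only [Pi.add_apply, mul_add, Finset.sum_add_distrib]
  rw [grad_VT D x h0 _ (fun m => hom_XF' D m p q)]
  simp only [Pi.smul_apply, smul_eq_mul]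
  rw [Finset.sum_eq_single p]
  · rw [Pi.single_eq_same, map_mul, eval_X]
    ring
  · intro b _ hb
    rw [Pi.single_eq_of_ne hb, mul_zero, mul_zero]
  · intro h; exact absurd (Finset.mem_univ p) h

theorem eval_lf {j0 : Fin (n + 1)} (hj0 : x j0 = 1) (i : Fin (n + 1)) :
    eval x (lf x j0 i) = 0 := by
  unfold lf
  rw [map_sub, map_mul, eval_X, eval_X, eval_C, hj0, mul_one, sub_self]

end ker

section pair
variable {L : Type} [Field L] {n c : ℕ} {d : Fin c → ℕ} (D : DSys L n c d)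
  (x : Fin (n + 1) → L)

theorem CB_lf {v : Valuation L ℤᵐ⁰} {j0 : Fin (n + 1)} (i : Fin (n + 1)) {s : ℤᵐ⁰}
    (h1 : 1 ≤ s) (h2 : v (x i) ≤ s) : CB v (lf x j0 i) s :=
  CB.sub v ((CB_X v i).mono v h1) ((CB_CX v (x i) j0).mono v h2)

/-- the reduction of `V(G)` -/
theorem VT_red {v : Valuation L ℤᵐ⁰} {M b : ℤᵐ⁰}
    (hdel : ∀ m I, I.degree = d m → ∀ f, v f ≤ 1 → v (D.del m I f) ≤ M)
    {iv : Fin (n + 1)} (hiv : x iv ≠ 0)
    (hle : ∀ j, v (x j) ≤ v (x iv)) {A : Fin c → MvPolynomial (Fin (n + 1)) L} (hA : Adm d A)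
    (hA' : ∀ m, CB v (A m) 1) {l : MvPolynomial (Fin (n + 1)) L} (hl : l.IsHomogeneous 1)
    (hb : CB v l b) :
    ∃ N : Fin (n + 1) → L, VT D x (mulT A l) - x iv • N ∈ Submodule.span L {x} ∧
      ∀ a, v (N a) ≤ b * M := by
  refine ⟨VT D ((x iv)⁻¹ • x) (mulT A l), VT_scale D x hiv _, fun a => ?_⟩
  refine VT_bound D _ v M b hdel (v_smul_le x hiv hle) _ (deg_mulT hA hl) (fun m => ?_) a
  have h := (hA' m).mul v hb
  rwa [one_mul] at h

theorem VT_mulT_add (A : Fin c → MvPolynomial (Fin (n + 1)) L)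
    (l l' : MvPolynomial (Fin (n + 1)) L) :
    VT D x (mulT A (l + l')) = VT D x (mulT A l) + VT D x (mulT A l') := by
  rw [← map_add]
  congr 1
  funext m
  simp only [mulT, Pi.add_apply, mul_add]

theorem VT_mulT_smul (A : Fin c → MvPolynomial (Fin (n + 1)) L) (a : L)
    (l : MvPolynomial (Fin (n + 1)) L) :
    VT D x (mulT A (a • l)) = a • VT D x (mulT A l) := by
  rw [← map_smul]
  congr 1
  funext m
  simp only [mulT, Pi.smul_apply, mul_smul_comm]

/-- the reduction of the second element of a pair -/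
theorem pair_red {v : Valuation L ℤᵐ⁰} {M : ℤᵐ⁰}
    (hdel : ∀ m I, I.degree = d m → ∀ f, v f ≤ 1 → v (D.del m I f) ≤ M)
    {j0 : Fin (n + 1)}
    {iv : Fin (n + 1)} (hiv : x iv ≠ 0) (h1 : 1 ≤ v (x iv))
    (hle : ∀ j, v (x j) ≤ v (x iv)) {A : Fin c → MvPolynomial (Fin (n + 1)) L} (hA : Adm d A)
    (hA' : ∀ m, CB v (A m) 1) {i i' : Fin (n + 1)} (hii : v (x i') ≤ v (x i)) :
    ∃ N N' : Fin (n + 1) → L, ∃ σ σ' : ℤᵐ⁰,
      VT D x (mulT A (lf x j0 i)) - x iv • N ∈ Submodule.span L {x} ∧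
      VT D x (mulT A (lf x j0 i')) - x iv • N' ∈
        Submodule.span L {x, VT D x (mulT A (lf x j0 i))} ∧
      (∀ a, v (N a) ≤ σ) ∧ (∀ a, v (N' a) ≤ σ') ∧ σ * σ' ≤ v (x iv) * (M * M) := by
  rcases le_total (v (x i)) 1 with h | h
  · obtain ⟨N, hN, hN'⟩ := VT_red D x hdel hiv hle hA hA' (hom_lf x j0 i)
      (CB_lf x (j0 := j0) i le_rfl h)
    obtain ⟨N2, hN2, hN2'⟩ := VT_red D x hdel hiv hle hA hA' (hom_lf x j0 i')
      (CB_lf x (j0 := j0) i' le_rfl (hii.trans h))
    refine ⟨N, N2, 1 * M, 1 * M, hN, ?_, hN', hN2', ?_⟩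
    · exact Submodule.span_mono (by simp) hN2
    · rw [one_mul]
      calc M * M = 1 * (M * M) := (one_mul _).symm
        _ ≤ _ := mul_le_mul' h1 le_rfl
  · have hxi : x i ≠ 0 := fun h0 => by rw [h0, map_zero] at h; exact absurd h (by simp)
    obtain ⟨N, hN, hN'⟩ := VT_red D x hdel hiv hle hA hA' (hom_lf x j0 i)
      (CB_lf x (j0 := j0) i h1 (hle i))
    set a : L := x i' / x i with ha
    have hva : v a ≤ 1 := by
      rw [ha, map_div₀]
      exact div_le_one_of_le₀ hii zero_le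
    have hl : lf x j0 i' = (X i' - C a * X i) + a • lf x j0 i := by
      unfold lf
      rw [smul_eq_C_mul, mul_sub, ← mul_assoc, ← C_mul, ha, div_mul_cancel₀ _ hxi]
      ring
    have hlh : (X i' - C a * X i : MvPolynomial (Fin (n + 1)) L).IsHomogeneous 1 :=
      (isHomogeneous_X L i').sub (hom_CX a i)
    obtain ⟨N2, hN2, hN2'⟩ := VT_red D x hdel hiv hle hA hA' hlh
      (CB.sub v (CB_X v i') ((CB_CX v a i).mono v hva))
    refine ⟨N, N2, v (x iv) * M, 1 * M, hN, ?_, hN', hN2', ?_⟩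
    · rw [hl, VT_mulT_add, VT_mulT_smul]
      have e1 : VT D x (mulT A (X i' - C a * X i)) + a • VT D x (mulT A (lf x j0 i)) - x iv • N2 =
          (VT D x (mulT A (X i' - C a * X i)) - x iv • N2) +
            a • VT D x (mulT A (lf x j0 i)) := by abel
      rw [e1]
      refine Submodule.add_mem _ (Submodule.span_mono (by simp) hN2) ?_
      exact Submodule.smul_mem _ _ (Submodule.subset_span (by simp))
    · rw [one_mul, mul_assoc]

/-- the columns of the pair inequality -/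
noncomputable def colP (j0 : Fin (n + 1)) {w P t : ℕ} (W : Fin w → Fin (n + 1) × Fin (n + 1))
    (A : Fin P → Fin c → MvPolynomial (Fin (n + 1)) L) (i i' : Fin P → Fin (n + 1))
    (A2 : Fin t → Fin c → MvPolynomial (Fin (n + 1)) L) (i2 : Fin t → Fin (n + 1)) :
    (Unit ⊕ Fin w) ⊕ ((Fin P ⊕ Fin P) ⊕ Fin t) → Fin (n + 1) → L :=
  Sum.elim (Sum.elim (fun _ => x) fun a => WT D x (W a).1 (W a).2)
    (Sum.elim (Sum.elim (fun j => VT D x (mulT (A j) (lf x j0 (i j))))
      fun j => VT D x (mulT (A j) (lf x j0 (i' j))))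
      fun j => VT D x (mulT (A2 j) (lf x j0 (i2 j))))

/-- module HPAIR -/
theorem hpair {j0 : Fin (n + 1)} (hj0 : x j0 = 1) (h0 : ∀ m, eval x (D.F m) = 0)
    (S : PlaceSys L) (hS : S.IsProd) (B : S.V → ℕ) (hB : BD S D B) {w P t : ℕ}
    (W : Fin w → Fin (n + 1) × Fin (n + 1))
    (A : Fin P → Fin c → MvPolynomial (Fin (n + 1)) L) (hA : ∀ j, Adm d (A j))
    (hA' : ∀ p j m, CB (S.v p) (A j m) 1) (i i' : Fin P → Fin (n + 1))
    (A2 : Fin t → Fin c → MvPolynomial (Fin (n + 1)) L) (hA2 : ∀ j, Adm d (A2 j))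
    (hA2' : ∀ p j m, CB (S.v p) (A2 j m) 1) (i2 : Fin t → Fin (n + 1))
    (hli : LinearIndependent L (colP D x j0 W A i i' A2 i2))
    (hcard : 1 + w + (P + P + t) + c = n + 1) :
    ((∑ m, d m : ℕ) : ℤ) * S.ht x ≤
      (2 * n + 2) * tot S B + (1 + w + 3 * P + 2 * t + c) * S.ht x := by
  classical
  have hx : x ≠ 0 := fun h0 => by rw [h0] at hj0; exact zero_ne_one hj0
  have hker : ∀ a m, ∑ p, eval x (pderiv p (D.F m)) * colP D x j0 W A i i' A2 i2 a p = 0 := by
    rintro ((_ | a) | ((j | j) | j)) m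
    · exact grad_x D x h0 m
    · exact grad_WT D x h0 _ _ m
    · exact grad_mulT D x h0 (hA j) (hom_lf x j0 _) (eval_lf x hj0 _) m
    · exact grad_mulT D x h0 (hA j) (hom_lf x j0 _) (eval_lf x hj0 _) m
    · exact grad_mulT D x h0 (hA2 j) (hom_lf x j0 _) (eval_lf x hj0 _) m
  have hc : Fintype.card ((Unit ⊕ Fin w) ⊕ ((Fin P ⊕ Fin P) ⊕ Fin t)) + c = n + 1 := by
    simp only [Fintype.card_sum, Fintype.card_fin, Fintype.card_unit]
    omega
  have e : ((Unit ⊕ Fin w) ⊕ ((Fin P ⊕ Fin P) ⊕ Fin t)) ⊕ Fin c ≃ Fin (n + 1) := by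
    refine Fintype.equivOfCardEq ?_
    rw [Fintype.card_sum, Fintype.card_fin, hc, Fintype.card_fin]
  obtain ⟨μ, hμ, hdet⟩ := detU D x h0 (colP D x j0 W A i i' A2 i2) hli hker hc hj0 e
  -- the local inequality
  have hloc : ∀ p, S.v p μ * S.mx x p ^ (∑ m, d m) ≤
      exp (B p : ℤ) ^ (2 * n + 2) * S.mx x p ^ (1 + w + 3 * P + 2 * t + c) := by
    intro p
    obtain ⟨iv, hiv⟩ := S.exists_mx x p
    have hs0 : S.mx x p ≠ 0 := S.mx_ne_zero x hx p
    have hs1 : 1 ≤ S.mx x p := S.one_le_mx x hj0 p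
    have hiv0 : x iv ≠ 0 := fun h => hs0 (by rw [← hiv, h, map_zero])
    have hle : ∀ j, S.v p (x j) ≤ S.v p (x iv) := fun j => by rw [hiv]; exact S.le_mx x p j
    have h1 : 1 ≤ S.v p (x iv) := by rw [hiv]; exact hs1
    set M : ℤᵐ⁰ := exp (B p : ℤ) with hMdef
    have hM : 1 ≤ M := by
      rw [hMdef, ← exp_zero]
      exact WithZero.exp_le_exp.2 (by positivity)
    have hdel : ∀ m I, I.degree = d m → ∀ f, S.v p f ≤ 1 → S.v p (D.del m I f) ≤ M :=
      fun m I hI f hf => hB.del p m I hI f hf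
    have hF : ∀ m, CB (S.v p) (D.F m) M := fun m I => hB.F p m I
    -- the columns `W`
    choose NW hNW hNW' using fun a : Fin w =>
      WT_red D x hM hdel hF hiv0 hle (W a).1 (W a).2
    -- the singles
    choose NS hNS hNS' using fun j : Fin t =>
      VT_red D x hdel hiv0 hle (hA2 j) (hA2' p j) (hom_lf x j0 (i2 j))
        (CB_lf x (j0 := j0) (i2 j) h1 (hle (i2 j)))
    -- the pairs
    have hpairs : ∀ j : Fin P, ∃ (N N' : Fin (n + 1) → L) (σ σ' : ℤᵐ⁰) (r r' : ℕ),
        1 ≤ r ∧ 1 ≤ r' ∧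
        (VT D x (mulT (A j) (lf x j0 (i j))) - x iv • N ∈
          Submodule.span L ({x} ∪ {u | r' < r ∧ VT D x (mulT (A j) (lf x j0 (i' j))) = u})) ∧
        (VT D x (mulT (A j) (lf x j0 (i' j))) - x iv • N' ∈
          Submodule.span L ({x} ∪ {u | r < r' ∧ VT D x (mulT (A j) (lf x j0 (i j))) = u})) ∧
        (∀ a, S.v p (N a) ≤ σ) ∧ (∀ a, S.v p (N' a) ≤ σ') ∧
          σ * σ' ≤ S.v p (x iv) * (M * M) := by
      intro j
      rcases le_total (S.v p (x (i' j))) (S.v p (x (i j))) with hii | hii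
      · obtain ⟨N, N', σ, σ', q1, q2, q3, q4, q5⟩ :=
          pair_red D x hdel (j0 := j0) hiv0 h1 hle (hA j) (hA' p j) hii
        refine ⟨N, N', σ, σ', 1, 2, le_rfl, one_le_two, ?_, ?_, q3, q4, q5⟩
        · exact Submodule.span_mono (by simp) q1
        · refine Submodule.span_mono ?_ q2
          rintro u (rfl | rfl)
          · left; rfl
          · right; exact ⟨one_lt_two, rfl⟩
      · obtain ⟨N, N', σ, σ', q1, q2, q3, q4, q5⟩ :=
          pair_red D x hdel (j0 := j0) hiv0 h1 hle (hA j) (hA' p j) hii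
        refine ⟨N', N, σ', σ, 2, 1, one_le_two, le_rfl, ?_, ?_, q4, q3, by
          rw [mul_comm]; exact q5⟩
        · refine Submodule.span_mono ?_ q2
          rintro u (rfl | rfl)
          · left; rfl
          · right; exact ⟨one_lt_two, rfl⟩
        · exact Submodule.span_mono (by simp) q1
    choose NP NP' σP σP' rP rP' q1 q2 q3 q4 q5 q6 q7 using hpairs
    have hx1 : x - (1 * x iv) • ((x iv)⁻¹ • x) = 0 := by
      rw [one_mul, smul_smul, mul_inv_cancel₀ hiv0, one_smul, sub_self]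
    have key := local_bound D x (S.v p) M hdel hiv0 hle (colP D x j0 W A i i' A2 i2)
      (Sum.inl (Sum.inl ())) rfl
      (Sum.elim (Sum.elim (fun _ => 0) fun _ => 1)
        (Sum.elim (Sum.elim rP rP') fun _ => 1))
      (Sum.elim (Sum.elim (fun _ => (x iv)⁻¹ • x) NW) (Sum.elim (Sum.elim NP NP') NS))
      (fun _ => 1)
      (Sum.elim (Sum.elim (fun _ => 1) fun _ => M * M)
        (Sum.elim (Sum.elim σP σP') fun _ => S.v p (x iv) * M)) ?_ ?_ e μ (hdet iv)
    · rw [hiv] at key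
      simp only [Fintype.prod_sum_type, Sum.elim_inl, Sum.elim_inr, map_one, one_mul,
        Finset.prod_const_one, Finset.prod_const, Finset.card_univ, Fintype.card_fin] at key
      rw [← Finset.prod_mul_distrib] at key
      have hP : ∏ j, σP j * σP' j ≤ (S.mx x p * (M * M)) ^ P := by
        calc ∏ j, σP j * σP' j ≤ ∏ _j : Fin P, (S.mx x p * (M * M)) :=
              Finset.prod_le_prod' fun j _ => by rw [← hiv]; exact q7 j
          _ = _ := by rw [Finset.prod_const, Finset.card_univ, Fintype.card_fin]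
      refine key.trans ?_
      calc S.mx x p ^ (n + 1) * ((M * M) ^ w * ((∏ j, σP j * σP' j) * (S.mx x p * M) ^ t)) * M ^ c
          ≤ S.mx x p ^ (n + 1) * ((M * M) ^ w * ((S.mx x p * (M * M)) ^ P *
              (S.mx x p * M) ^ t)) * M ^ c := by
            refine mul_le_mul' (mul_le_mul' le_rfl (mul_le_mul' le_rfl
              (mul_le_mul' hP le_rfl))) le_rfl
        _ = M ^ (2 * w + 2 * P + t + c) * S.mx x p ^ (n + 1 + P + t) := by
            simp only [mul_pow, ← pow_mul, ← pow_two]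
            have e1 : M ^ (2 * w + 2 * P + t + c) = M ^ (2 * w) * M ^ (2 * P) * M ^ t * M ^ c := by
              rw [pow_add, pow_add, pow_add]
            have e2 : S.mx x p ^ (n + 1 + P + t) =
              S.mx x p ^ (n + 1) * S.mx x p ^ P * S.mx x p ^ t := by rw [pow_add, pow_add]
            rw [e1, e2]
            simp only [mul_assoc, mul_left_comm, mul_comm]
        _ ≤ _ := by
            refine mul_le_mul' (pow_le_pow_right' hM ?_) (pow_le_pow_right' hs1 ?_)
            · omega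
            · omega
    · rintro ((_ | a) | ((j | j) | j))
      · change x - (1 * x iv) • ((x iv)⁻¹ • x) ∈ _
        rw [hx1]
        exact Submodule.zero_mem _
      · change WT D x (W a).1 (W a).2 - (1 * x iv) • NW a ∈ _
        rw [one_mul]
        refine Submodule.span_mono ?_ (hNW a)
        rintro _ rfl
        exact ⟨Sum.inl (Sum.inl ()), Nat.zero_lt_one, rfl⟩
      · change VT D x (mulT (A j) (lf x j0 (i j))) - (1 * x iv) • NP j ∈ _
        rw [one_mul]
        refine Submodule.span_mono ?_ (q3 j)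
        rintro u (rfl | ⟨hr, rfl⟩)
        · exact ⟨Sum.inl (Sum.inl ()), q1 j, rfl⟩
        · exact ⟨Sum.inr (Sum.inl (Sum.inr j)), hr, rfl⟩
      · change VT D x (mulT (A j) (lf x j0 (i' j))) - (1 * x iv) • NP' j ∈ _
        rw [one_mul]
        refine Submodule.span_mono ?_ (q4 j)
        rintro u (rfl | ⟨hr, rfl⟩)
        · exact ⟨Sum.inl (Sum.inl ()), q2 j, rfl⟩
        · exact ⟨Sum.inr (Sum.inl (Sum.inl j)), hr, rfl⟩
      · change VT D x (mulT (A2 j) (lf x j0 (i2 j))) - (1 * x iv) • NS j ∈ _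
        rw [one_mul]
        refine Submodule.span_mono ?_ (hNS j)
        rintro _ rfl
        exact ⟨Sum.inl (Sum.inl ()), Nat.zero_lt_one, rfl⟩
    · rintro ((_ | a) | ((j | j) | j)) b
      · exact v_smul_le x hiv0 hle b
      · exact hNW' a b
      · exact q5 j b
      · exact q6 j b
      · exact hNS' j b
  -- the sum
  have h := glob_sum0 S x hS hj0 B hB.fin μ hμ (∑ m, d m) (2 * n + 2)
    (1 + w + 3 * P + 2 * t + c) hloc
  push_cast at h ⊢
  linarith

end pair

end Pool.Agent.Sharp
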