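import Pool.Agent.Lib.MP_c7af3c_ag.SHARP.H26.LemA

/-!
# MP_c7af3c_ag: Lemma A for every number of pairs (proof of helper19, formalised by helper26)
-/

set_option autoImplicit false
set_option linter.unusedSectionVars false

namespace Pool.Agent.Sharp.LA

variable {L M V ι : Type} [Field L] [AddCommGroup M] [Module L M] [AddCommGroup V] [Module L V]
  [FiniteDimensional L V] (b : ι → M) (A : Set (M →ₗ[L] V))

/-- the stronger conclusion of Lemma A -/
def Conc' (A : Set (M →ₗ[L] V)) (U : Submodule L V) (s : ℕ) : Prop :=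
  ∃ f : M →ₗ[L] L, f ≠ 0 ∧ (∀ u, (∀ φ ∈ A, φ u ∈ U) → f u = 0) ∧
    Module.finrank L (U ⊔ Im A (LinearMap.ker f) : Submodule L V) ≤ Module.finrank L U + s

theorem Conc'.mono {A : Set (M →ₗ[L] V)} {U : Submodule L V} {s s' : ℕ} (h : Conc' A U s)
    (hs : s ≤ s') : Conc' A U s' := by
  obtain ⟨f, h1, h2, h3⟩ := h
  exact ⟨f, h1, h2, by omega⟩

/-- no pair modulo `U`: rank at most one modulo `U` -/
theorem rank_le_one {b : ι → M} (hb : Submodule.span L (Set.range b) = ⊤) {U : Submodule L V}
    {φ : M →ₗ[L] V} (h : ∀ i i', ¬ Pr b U φ i i') {u : M} (hu : φ u ∉ U) (v : M) :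
    φ v ∈ U ⊔ Submodule.span L {φ u} := by
  obtain ⟨i, hi⟩ : ∃ i, φ (b i) ∉ U := by
    by_contra hcon
    push Not at hcon
    exact hu (le_of_basis hb hcon u)
  have hall : ∀ w, φ w ∈ U ⊔ Submodule.span L {φ (b i)} := by
    refine le_of_basis hb fun i' => ?_
    by_contra hc
    exact h i i' (Pr_of b hi hc)
  have h1 : U ⊔ Submodule.span L {φ u} ≤ U ⊔ Submodule.span L {φ (b i)} := by
    refine sup_le le_sup_left ?_
    rw [Submodule.span_le]
    rintro _ rfl
    exact hall u
  have h2 : U ⊔ Submodule.span L {φ u} = U ⊔ Submodule.span L {φ (b i)} := by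
    refine Submodule.eq_of_le_of_finrank_eq h1 ?_
    rw [finrank_sup_singleton_lt hu, finrank_sup_singleton_lt hi]
  rw [h2]
  exact hall v

/-- LEMMA A for every `s` -/
theorem lemAll {b : ι → M} (hb : Submodule.span L (Set.range b) = ⊤)
    (hadd : ∀ φ ∈ A, ∀ ψ ∈ A, φ + ψ ∈ A) (s : ℕ) : ∀ U : Submodule L V,
    Module.finrank L U + (2 * s + 2) ≤ Module.finrank L (U ⊔ Im A ⊤ : Submodule L V) →
    ¬ HasPairs b A U (s + 1) → Conc' A U s := by
  induction s with
  | zero =>
    intro U h2 hno
    obtain ⟨f, hf, hf1, hf2⟩ := rank1_mod A hb hadd U (fun φ hφ i i' hp => hno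
      (HasPairs.succ hφ hp (HasPairs.zero b A _))) (by omega)
    refine ⟨f, hf, hf2, ?_⟩
    have h3 : U ⊔ Im A (LinearMap.ker f) ≤ U := sup_le le_rfl ((Im_le A).2 fun φ hφ u hu =>
      hf1 φ hφ u hu)
    exact Submodule.finrank_mono h3
  | succ s ih =>
    intro U h2 hno
    by_cases hc : ∃ φ1 ∈ A, ∃ i1 i1', Pr b U φ1 i1 i1'
    swap
    · push Not at hc
      obtain ⟨f, hf, hf1, hf2⟩ := rank1_mod A hb hadd U hc (by omega)
      refine ⟨f, hf, hf2, ?_⟩
      have h3 : U ⊔ Im A (LinearMap.ker f) ≤ U := sup_le le_rfl ((Im_le A).2 fun φ hφ u hu =>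
        hf1 φ hφ u hu)
      exact (Submodule.finrank_mono h3).trans (Nat.le_add_right _ _)
    -- the inductive hypothesis for a pair
    have hIH : ∀ φ ∈ A, ∀ i i', Pr b U φ i i' → ∃ f : M →ₗ[L] L, f ≠ 0 ∧
        (∀ u, (∀ φ ∈ A, φ u ∈ U) → f u = 0) ∧
        Module.finrank L ((U ⊔ pl b φ i i') ⊔ Im A (LinearMap.ker f) : Submodule L V) ≤
          Module.finrank L U + (s + 2) := by
      intro φ hφ i i' hp
      have hp' : Module.finrank L (U ⊔ pl b φ i i' : Submodule L V) =
        Module.finrank L U + 2 := hp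
      have hle : U ⊔ Im A ⊤ ≤ (U ⊔ pl b φ i i') ⊔ Im A ⊤ := sup_le_sup_right le_sup_left _
      have h3 := Submodule.finrank_mono hle
      obtain ⟨f, hf, hf1, hf2⟩ := ih (U ⊔ pl b φ i i') (by omega)
        (fun h => hno (HasPairs.succ hφ hp h))
      exact ⟨f, hf, fun u hu => hf1 u fun φ hφ => Submodule.mem_sup_left (hu φ hφ), by omega⟩
    obtain ⟨φ1, hφ1, i1, i1', hp1⟩ := hc
    obtain ⟨f1, hf1, hf1a, hf1b⟩ := hIH φ1 hφ1 i1 i1' hp1
    by_cases hdone : Module.finrank L (U ⊔ Im A (LinearMap.ker f1) : Submodule L V) ≤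
        Module.finrank L U + (s + 1)
    · exact ⟨f1, hf1, hf1a, hdone⟩
    exfalso
    push Not at hdone
    set N := U ⊔ Im A (LinearMap.ker f1) with hN
    have hNr : Module.finrank L N = Module.finrank L U + (s + 2) := by
      have h3 : N ≤ (U ⊔ pl b φ1 i1 i1') ⊔ Im A (LinearMap.ker f1) :=
        sup_le_sup_right le_sup_left _
      have := Submodule.finrank_mono h3
      omega
    -- all pairs lie in `N`
    have hpN : ∀ φ ∈ A, ∀ i i', Pr b U φ i i' → pl b φ i i' ≤ N := by
      intro φ hφ i i' hp
      obtain ⟨f2, hf2, hf2a, hf2b⟩ := hIH φ hφ i i' hp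
      by_cases hker : ∀ u, f1 u = 0 → f2 u = 0
      · have h3 : N ≤ (U ⊔ pl b φ i i') ⊔ Im A (LinearMap.ker f2) := by
          refine sup_le (le_sup_left.trans le_sup_left) ((Im_le A).2 fun ψ hψ u hu => ?_)
          exact Submodule.mem_sup_right (mem_Im A hψ (hker u hu))
        have h4 := Submodule.eq_of_le_of_finrank_le h3 (by omega)
        rw [h4]
        exact le_sup_right.trans le_sup_left
      · exfalso
        push Not at hker
        obtain ⟨u1, hu1, hu1'⟩ := hker
        set N2 := (U ⊔ pl b φ i i') ⊔ Im A (LinearMap.ker f2) with hN2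
        have h3 : U ⊔ Im A ⊤ ≤ N ⊔ N2 := by
          refine sup_le (le_sup_left.trans le_sup_left) ((Im_le A).2 fun ψ hψ u _ => ?_)
          have e1 : ψ u = (f2 u / f2 u1) • ψ u1 + ψ (u - (f2 u / f2 u1) • u1) := by
            rw [map_sub, map_smul]
            abel
          rw [e1]
          refine Submodule.add_mem _ (Submodule.smul_mem _ _ (Submodule.mem_sup_left
            (Submodule.mem_sup_right (mem_Im A hψ hu1)))) (Submodule.mem_sup_right
              (Submodule.mem_sup_right (mem_Im A hψ ?_)))
          rw [LinearMap.mem_ker, map_sub, map_smul, smul_eq_mul, div_mul_cancel₀ _ hu1', sub_self]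
        have h4 := Submodule.finrank_sup_add_finrank_inf_eq N N2
        have h5 := Submodule.finrank_mono h3
        have h6 : U ≤ N ⊓ N2 := le_inf le_sup_left (le_sup_left.trans le_sup_left)
        have h7 : U = N ⊓ N2 := Submodule.eq_of_le_of_finrank_le h6 (by omega)
        -- a vector in the second kernel
        obtain ⟨u2, hu2, hu2'⟩ : ∃ u2, f2 u2 = 0 ∧ f1 u2 ≠ 0 := by
          by_contra hcon
          push Not at hcon
          apply hf1
          ext u
          have h8 := hcon (u - (f2 u / f2 u1) • u1) (by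
            rw [map_sub, map_smul, smul_eq_mul, div_mul_cancel₀ _ hu1', sub_self])
          rw [map_sub, map_smul, hu1, smul_zero, sub_zero] at h8
          exact h8
        have hw : ∀ w, f2 w = 0 → φ w ∈ U ⊔ Submodule.span L {φ u2} := by
          intro w hw
          have e1 : φ w = φ (w - (f1 w / f1 u2) • u2) + (f1 w / f1 u2) • φ u2 := by
            rw [map_sub, map_smul]
            abel
          rw [e1]
          refine Submodule.add_mem _ (Submodule.mem_sup_left ?_) (Submodule.mem_sup_right
            (Submodule.smul_mem _ _ (Submodule.mem_span_singleton_self _)))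
          rw [h7]
          refine ⟨Submodule.mem_sup_right (mem_Im A hφ ?_),
            Submodule.mem_sup_right (mem_Im A hφ ?_)⟩
          · rw [LinearMap.mem_ker, map_sub, map_smul, smul_eq_mul, div_mul_cancel₀ _ hu2',
              sub_self]
          · rw [LinearMap.mem_ker, map_sub, map_smul, hw, hu2, smul_zero, sub_zero]
        have hall : ∀ u, φ u ∈ N2 → φ u ∈ U ⊔ Submodule.span L {φ u2} := by
          intro u hu
          have hw0 : f2 (u - (f2 u / f2 u1) • u1) = 0 := by
            rw [map_sub, map_smul, smul_eq_mul, div_mul_cancel₀ _ hu1', sub_self]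
          have e1 : φ u = (f2 u / f2 u1) • φ u1 + φ (u - (f2 u / f2 u1) • u1) := by
            rw [map_sub, map_smul]
            abel
          rw [e1]
          refine Submodule.add_mem _ (Submodule.mem_sup_left ?_) (hw _ hw0)
          rw [h7]
          refine ⟨Submodule.smul_mem _ _ (Submodule.mem_sup_right (mem_Im A hφ hu1)), ?_⟩
          have e2 : (f2 u / f2 u1) • φ u1 = φ u - φ (u - (f2 u / f2 u1) • u1) := by
            rw [map_sub, map_smul]
            abel
          rw [e2]
          exact Submodule.sub_mem _ hu (Submodule.mem_sup_right (mem_Im A hφ hw0))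
        have h8 : U ⊔ pl b φ i i' ≤ U ⊔ Submodule.span L {φ u2} := by
          refine sup_le le_sup_left ?_
          unfold pl
          rw [Submodule.span_le]
          rintro _ (rfl | rfl)
          · exact hall _ (Submodule.mem_sup_left (Submodule.mem_sup_right (pl_left b φ i i')))
          · exact hall _ (Submodule.mem_sup_left (Submodule.mem_sup_right (pl_right b φ i i')))
        have h9 := Submodule.finrank_mono h8
        have h10 := finrank_sup_span_singleton_le U (φ u2)
        have hp' : Module.finrank L (U ⊔ pl b φ i i' : Submodule L V) =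
          Module.finrank L U + 2 := hp
        omega
    have hUN : U ≤ N := le_sup_left
    -- a map with a pair has its image in `N`
    have hφN : ∀ φ ∈ A, (∃ i i', Pr b U φ i i') → ∀ v, φ v ∈ N := by
      rintro φ hφ ⟨i, i', hp⟩
      refine le_of_basis hb fun j => ?_
      by_cases hj : φ (b j) ∈ U
      · exact hUN hj
      · -- `b j` together with `b i` or `b i'` is a pair
        by_cases h3 : φ (b i) ∈ U ⊔ Submodule.span L {φ (b j)}
        · by_cases h4 : φ (b i') ∈ U ⊔ Submodule.span L {φ (b j)}
          · exfalso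
            have h5 : U ⊔ pl b φ i i' ≤ U ⊔ Submodule.span L {φ (b j)} := by
              refine sup_le le_sup_left ?_
              unfold pl
              rw [Submodule.span_le]
              rintro _ (rfl | rfl)
              · exact h3
              · exact h4
            have h9 := Submodule.finrank_mono h5
            have h10 := finrank_sup_span_singleton_le U (φ (b j))
            have hp' : Module.finrank L (U ⊔ pl b φ i i' : Submodule L V) =
              Module.finrank L U + 2 := hp
            omega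
          · exact hpN φ hφ j i' (Pr_of b hj h4) (pl_left b φ j i')
        · exact hpN φ hφ j i (Pr_of b hj h3) (pl_left b φ j i)
    obtain ⟨ψ, hψ, u, hu⟩ : ∃ ψ ∈ A, ∃ u, ψ u ∉ N := by
      by_contra hcon
      push Not at hcon
      have h3 : U ⊔ Im A ⊤ ≤ N := sup_le hUN ((Im_le A).2 fun φ hφ u _ => hcon φ hφ u)
      have := Submodule.finrank_mono h3
      omega
    have hφ1N := hφN φ1 hφ1 ⟨i1, i1', hp1⟩
    have hψno : ∀ i i', ¬ Pr b U ψ i i' := fun i i' hp => hu (hφN ψ hψ ⟨i, i', hp⟩ u)
    have hsum : (φ1 + ψ) u ∉ N := by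
      intro h
      apply hu
      rw [LinearMap.add_apply] at h
      exact (Submodule.add_mem_iff_right N (hφ1N u)).1 h
    have hsno : ∀ i i', ¬ Pr b U (φ1 + ψ) i i' := fun i i' hp =>
      hsum (hφN (φ1 + ψ) (hadd φ1 hφ1 ψ hψ) ⟨i, i', hp⟩ u)
    have hline : ∀ v, φ1 v ∈ U ⊔ Submodule.span L {φ1 u} := by
      intro v
      have h3 := rank_le_one hb hψno (fun h => hu (hUN h)) v
      have h4 := rank_le_one hb hsno (fun h => hsum (hUN h)) v
      rw [Submodule.mem_sup] at h3 h4
      obtain ⟨a, ha, e, he, hae⟩ := h3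
      obtain ⟨a', ha', e', he', hae'⟩ := h4
      rw [Submodule.mem_span_singleton] at he he'
      obtain ⟨α, rfl⟩ := he
      obtain ⟨β, rfl⟩ := he'
      have e1 : φ1 v = (a' - a) + β • φ1 u + (β - α) • ψ u := by
        have e2 : φ1 v = (φ1 + ψ) v - ψ v := by rw [LinearMap.add_apply]; abel
        rw [e2, ← hae, ← hae', LinearMap.add_apply, smul_add, sub_smul]
        abel
      have hβ : β - α = 0 := by
        by_contra hne
        apply hu
        have e2 : (β - α) • ψ u = φ1 v - ((a' - a) + β • φ1 u) := by rw [e1]; abel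
        have h5 : (β - α) • ψ u ∈ N := by
          rw [e2]
          exact Submodule.sub_mem _ (hφ1N v) (Submodule.add_mem _
            (hUN (Submodule.sub_mem _ ha' ha)) (Submodule.smul_mem _ _ (hφ1N u)))
        exact (Submodule.smul_mem_iff _ hne).1 h5
      rw [e1, hβ, zero_smul, add_zero]
      exact Submodule.add_mem _ (Submodule.mem_sup_left (Submodule.sub_mem _ ha' ha))
        (Submodule.mem_sup_right (Submodule.smul_mem _ _ (Submodule.mem_span_singleton_self _)))
    have h8 : U ⊔ pl b φ1 i1 i1' ≤ U ⊔ Submodule.span L {φ1 u} := by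
      refine sup_le le_sup_left ?_
      unfold pl
      rw [Submodule.span_le]
      rintro _ (rfl | rfl)
      · exact hline _
      · exact hline _
    have h9 := Submodule.finrank_mono h8
    have h10 := finrank_sup_span_singleton_le U (φ1 u)
    have hp' : Module.finrank L (U ⊔ pl b φ1 i1 i1' : Submodule L V) =
      Module.finrank L U + 2 := hp1
    omega

end Pool.Agent.Sharp.LA
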