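import Pool.Agent.Lib.MP_c7af3c_ag.SHARP.H26.Det
import Pool.Agent.Lib.MP_c7af3c_ag.GEN.H12.Reln
import Pool.Agent.Lib.MP_c7af3c_ag.GEN.H52.Loc

/-!
# MP_c7af3c_ag, project SHARP: the determinant of a basis of the kernel and the vectors `U`
(helper26)
-/

set_option autoImplicit false
set_option linter.unusedSectionVars false

namespace Pool.Agent.Sharp

open MvPolynomial WithZero Pool.Agent.Gen

section
variable {L : Type} [Field L] {n c : ℕ} {d : Fin c → ℕ} (D : DSys L n c d)
  (x : Fin (n + 1) → L)

/-- the columns: vectors `K` and the vectors `U^(i)_m = V_m(X_i^(d_m))` -/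
noncomputable def colU {ι : Type} (K : ι → Fin (n + 1) → L) (i : Fin (n + 1)) :
    ι ⊕ Fin c → Fin (n + 1) → L :=
  Sum.elim K fun m => D.V x m (X i ^ d m)

theorem hom_Xpow (i : Fin (n + 1)) (k : ℕ) :
    (X i ^ k : MvPolynomial (Fin (n + 1)) L).IsHomogeneous k := by
  have h := (isHomogeneous_X L i).pow k
  rwa [one_mul] at h

/-- the value of `F'_m'(x)` on `U^(i)_m` -/
theorem grad_U (h0 : ∀ m, eval x (D.F m) = 0) (m m' : Fin c) (i : Fin (n + 1)) :
    ∑ p, eval x (pderiv p (D.F m')) * D.V x m (X i ^ d m) p =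
      if m = m' then - x i ^ d m else 0 := by
  rw [Pool.Agent.Gen.H12.reln L n c d D x h0 m m' _ (hom_Xpow i (d m)), map_pow, eval_X]

variable {ι : Type} [Fintype ι] [DecidableEq ι]

/-- independent vectors of the kernel and the vectors `U^(j0)` are independent -/
theorem li_colU (h0 : ∀ m, eval x (D.F m) = 0) (K : ι → Fin (n + 1) → L)
    (hK : LinearIndependent L K)
    (hker : ∀ a m, ∑ p, eval x (pderiv p (D.F m)) * K a p = 0) {i : Fin (n + 1)}
    (hi : x i ≠ 0) : LinearIndependent L (colU D x K i) := by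
  rw [Fintype.linearIndependent_iff]
  intro g hg
  rw [Fintype.sum_sum_type] at hg
  have hb : ∀ m, g (Sum.inr m) = 0 := by
    intro m
    have h1 : ∑ p, eval x (pderiv p (D.F m)) *
        (∑ a, g (Sum.inl a) • colU D x K i (Sum.inl a) +
          ∑ b, g (Sum.inr b) • colU D x K i (Sum.inr b)) p = 0 := by
      rw [hg]
      simp
    simp only [Pi.add_apply, Finset.sum_apply, Pi.smul_apply, smul_eq_mul, mul_add,
      Finset.mul_sum, Finset.sum_add_distrib] at h1
    rw [Finset.sum_comm, Finset.sum_comm (s := Finset.univ) (t := Finset.univ)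
      (f := fun p b => eval x (pderiv p (D.F m)) *
        (g (Sum.inr b) * colU D x K i (Sum.inr b) p))] at h1
    have h2 : ∀ a, ∑ p, eval x (pderiv p (D.F m)) *
        (g (Sum.inl a) * colU D x K i (Sum.inl a) p) = 0 := by
      intro a
      have h3 : ∀ p, eval x (pderiv p (D.F m)) * (g (Sum.inl a) * colU D x K i (Sum.inl a) p) =
          g (Sum.inl a) * (eval x (pderiv p (D.F m)) * K a p) := fun p => by
        simp only [colU, Sum.elim_inl]
        ring
      rw [Finset.sum_congr rfl fun p _ => h3 p, ← Finset.mul_sum, hker, mul_zero]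
    have h4 : ∀ b, ∑ p, eval x (pderiv p (D.F m)) *
        (g (Sum.inr b) * colU D x K i (Sum.inr b) p) =
        g (Sum.inr b) * (if b = m then - x i ^ d b else 0) := by
      intro b
      rw [← grad_U D x h0 b m i, Finset.mul_sum]
      refine Finset.sum_congr rfl fun p _ => ?_
      simp only [colU, Sum.elim_inr]
      ring
    rw [Finset.sum_congr rfl fun a _ => h2 a, Finset.sum_congr rfl fun b _ => h4 b,
      Finset.sum_const_zero, zero_add] at h1
    simp only [mul_ite, mul_zero, Finset.sum_ite_eq', Finset.mem_univ, if_true] at h1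
    rcases mul_eq_zero.1 h1 with h5 | h5
    · exact h5
    · exact absurd (neg_eq_zero.1 h5) (pow_ne_zero _ hi)
  have ha : ∑ a, g (Sum.inl a) • K a = 0 := by
    have h1 : ∑ b, g (Sum.inr b) • colU D x K i (Sum.inr b) = 0 :=
      Finset.sum_eq_zero fun b _ => by rw [hb b, zero_smul]
    rw [h1, add_zero] at hg
    exact hg
  have ha' := Fintype.linearIndependent_iff.1 hK _ ha
  rintro (a | b)
  · exact ha' a
  · exact hb b

/-- the vectors of the kernel are spanned by `K` -/
theorem mem_span_K (h0 : ∀ m, eval x (D.F m) = 0) (K : ι → Fin (n + 1) → L)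
    (hK : LinearIndependent L K)
    (hker : ∀ a m, ∑ p, eval x (pderiv p (D.F m)) * K a p = 0)
    (hcard : Fintype.card ι + c = n + 1) {j0 : Fin (n + 1)}
    (hj0 : x j0 ≠ 0) {u : Fin (n + 1) → L}
    (hu : ∀ m, ∑ p, eval x (pderiv p (D.F m)) * u p = 0) : u ∈ Submodule.span L (Set.range K) := by
  have hli := li_colU D x h0 K hK hker hj0
  have hspan : Submodule.span L (Set.range (colU D x K j0)) = ⊤ := by
    refine hli.span_eq_top_of_card_eq_finrank' ?_
    rw [Fintype.card_sum, Fintype.card_fin, Module.finrank_fin_fun, hcard]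
  have hmem : u ∈ Submodule.span L (Set.range (colU D x K j0)) := by rw [hspan]; trivial
  rw [Submodule.mem_span_range_iff_exists_fun] at hmem
  obtain ⟨g, hg⟩ := hmem
  rw [Fintype.sum_sum_type] at hg
  have hb : ∀ m, g (Sum.inr m) = 0 := by
    intro m
    have h1 := hu m
    rw [← hg] at h1
    simp only [Pi.add_apply, Finset.sum_apply, Pi.smul_apply, smul_eq_mul, mul_add,
      Finset.mul_sum, Finset.sum_add_distrib] at h1
    rw [Finset.sum_comm, Finset.sum_comm (s := Finset.univ) (t := Finset.univ)
      (f := fun p b => eval x (pderiv p (D.F m)) *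
        (g (Sum.inr b) * colU D x K j0 (Sum.inr b) p))] at h1
    have h2 : ∀ a, ∑ p, eval x (pderiv p (D.F m)) *
        (g (Sum.inl a) * colU D x K j0 (Sum.inl a) p) = 0 := by
      intro a
      have h3 : ∀ p, eval x (pderiv p (D.F m)) * (g (Sum.inl a) * colU D x K j0 (Sum.inl a) p) =
          g (Sum.inl a) * (eval x (pderiv p (D.F m)) * K a p) := fun p => by
        simp only [colU, Sum.elim_inl]
        ring
      rw [Finset.sum_congr rfl fun p _ => h3 p, ← Finset.mul_sum, hker, mul_zero]
    have h4 : ∀ b, ∑ p, eval x (pderiv p (D.F m)) *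
        (g (Sum.inr b) * colU D x K j0 (Sum.inr b) p) =
        g (Sum.inr b) * (if b = m then - x j0 ^ d b else 0) := by
      intro b
      rw [← grad_U D x h0 b m j0, Finset.mul_sum]
      refine Finset.sum_congr rfl fun p _ => ?_
      simp only [colU, Sum.elim_inr]
      ring
    rw [Finset.sum_congr rfl fun a _ => h2 a, Finset.sum_congr rfl fun b _ => h4 b,
      Finset.sum_const_zero, zero_add] at h1
    simp only [mul_ite, mul_zero, Finset.sum_ite_eq', Finset.mem_univ, if_true] at h1
    rcases mul_eq_zero.1 h1 with h5 | h5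
    · exact h5
    · exact absurd (neg_eq_zero.1 h5) (pow_ne_zero _ hj0)
  have h1 : ∑ b, g (Sum.inr b) • colU D x K j0 (Sum.inr b) = 0 :=
    Finset.sum_eq_zero fun b _ => by rw [hb b, zero_smul]
  rw [h1, add_zero] at hg
  rw [Submodule.mem_span_range_iff_exists_fun]
  exact ⟨fun a => g (Sum.inl a), hg⟩

/-- module DETU: `det(K, U^(i)) = μ x_i^D`, `μ ≠ 0` -/
theorem detU (h0 : ∀ m, eval x (D.F m) = 0) (K : ι → Fin (n + 1) → L)
    (hK : LinearIndependent L K)
    (hker : ∀ a m, ∑ p, eval x (pderiv p (D.F m)) * K a p = 0)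
    (hcard : Fintype.card ι + c = n + 1) {j0 : Fin (n + 1)} (hj0 : x j0 = 1)
    (e : ι ⊕ Fin c ≃ Fin (n + 1)) :
    ∃ μ : L, μ ≠ 0 ∧ ∀ i, Matrix.det (Matrix.of fun a k => colU D x K i k (e a)) =
      μ * x i ^ (∑ m, d m) := by
  have hne : x j0 ≠ 0 := by rw [hj0]; exact one_ne_zero
  refine ⟨Matrix.det (Matrix.of fun a k => colU D x K j0 k (e a)), ?_, fun i => ?_⟩
  · have hli := li_colU D x h0 K hK hker hne
    have hli2 : LinearIndependent L (fun k a => colU D x K j0 k (e a)) := by
      have h1 := hli.map' (LinearMap.funLeft L L e) (LinearMap.ker_eq_bot.2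
        (LinearMap.funLeft_injective_of_surjective L L e e.surjective))
      exact h1
    have h3 : (Matrix.of fun a k => colU D x K j0 k (e a)) =
        Matrix.transpose (Matrix.of fun k a => colU D x K j0 k (e a)) := rfl
    rw [h3, Matrix.det_transpose]
    have h4 : IsUnit (Matrix.of fun k a => colU D x K j0 k (e a)) :=
      Matrix.linearIndependent_rows_iff_isUnit.1 hli2
    exact ((Matrix.isUnit_iff_isUnit_det _).1 h4).ne_zero
  · have h1 := det_replace (fun k a => colU D x K i k (e a)) (fun k a => colU D x K j0 k (e a))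
      (Sum.elim (fun _ => 1) fun m => x i ^ d m) (Sum.elim (fun _ => 0) fun _ => 1) ?_
    · rw [h1, Fintype.prod_sum_type, mul_comm]
      congr 1
      simp only [Sum.elim_inl, Sum.elim_inr, Finset.prod_const_one, one_mul]
      rw [Finset.prod_pow_eq_pow_sum]
    · rintro (a | m)
      · simp only [Sum.elim_inl, one_smul]
        have : (fun b => colU D x K i (Sum.inl a) (e b)) -
            (fun b => colU D x K j0 (Sum.inl a) (e b)) = 0 := by
          funext b
          simp [colU]
        rw [this]
        exact Submodule.zero_mem _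
      · simp only [Sum.elim_inr]
        have h2 : D.V x m (X i ^ d m) - x i ^ d m • D.V x m (X j0 ^ d m) ∈
            Submodule.span L (Set.range K) := by
          refine mem_span_K D x h0 K hK hker hcard hne fun m' => ?_
          simp only [Pi.sub_apply, Pi.smul_apply, smul_eq_mul, mul_sub, Finset.sum_sub_distrib]
          have h3 : ∑ p, eval x (pderiv p (D.F m')) * (x i ^ d m * D.V x m (X j0 ^ d m) p) =
              x i ^ d m * ∑ p, eval x (pderiv p (D.F m')) * D.V x m (X j0 ^ d m) p := by
            rw [Finset.mul_sum]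
            exact Finset.sum_congr rfl fun p _ => by ring
          rw [h3, grad_U D x h0 m m' i, grad_U D x h0 m m' j0, hj0]
          split_ifs
          · rw [one_pow]; ring
          · ring
        have h4 := Submodule.mem_map_of_mem (f := LinearMap.funLeft L L e) h2
        rw [Submodule.map_span] at h4
        refine Submodule.span_mono ?_ h4
        rintro _ ⟨_, ⟨a, rfl⟩, rfl⟩
        exact ⟨Sum.inl a, Nat.zero_lt_one, rfl⟩

end

end Pool.Agent.Sharp
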