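import Pool.Agent.Lib.MP_c7af3c_ag.GEN.Base

/-!
# MP_c7af3c_ag, project SHARP: the local estimate of a determinant (helper26)
-/

set_option autoImplicit false

namespace Pool.Agent.Sharp

open WithZero

section
variable {L : Type} [Field L] {ι : Type} [Fintype ι] [DecidableEq ι]

/-- the ultrametric bound of a determinant -/
theorem v_det_le (v : Valuation L ℤᵐ⁰) (A : Matrix ι ι L) (σ : ι → ℤᵐ⁰)
    (h : ∀ a k, v (A a k) ≤ σ k) : v A.det ≤ ∏ k, σ k := by
  rw [Matrix.det_apply]
  refine v.map_sum_le fun τ _ => ?_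
  have h1 : v (Equiv.Perm.sign τ • ∏ i, A (τ i) i) = ∏ i, v (A (τ i) i) := by
    rcases Int.units_eq_one_or (Equiv.Perm.sign τ) with h | h
    · rw [h, one_smul, map_prod]
    · rw [h, Units.neg_smul, one_smul, Valuation.map_neg, map_prod]
  rw [h1]
  exact Finset.prod_le_prod' fun i _ => h _ _

/-- LOCDET, algebraic part: replacing columns modulo columns of smaller rank -/
theorem det_replace (B N : ι → ι → L) (lam : ι → L) (ρ : ι → ℕ)
    (h : ∀ k, B k - lam k • N k ∈ Submodule.span L {u | ∃ k', ρ k' < ρ k ∧ B k' = u}) :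
    Matrix.det (Matrix.of fun a k => B k a) =
      (∏ k, lam k) * Matrix.det (Matrix.of fun a k => N k a) := by
  classical
  have h1 : ∀ k, ∃ t : ι → L, (∀ k', ¬ ρ k' < ρ k → t k' = 0) ∧
      B k - lam k • N k = ∑ k', t k' • B k' := by
    intro k
    have h2 : {u | ∃ k', ρ k' < ρ k ∧ B k' = u} = B '' {k' | ρ k' < ρ k} := rfl
    have h3 := h k
    rw [h2, Finsupp.mem_span_image_iff_linearCombination] at h3
    obtain ⟨t, ht, ht'⟩ := h3
    refine ⟨t, fun k' hk' => ?_, ?_⟩
    · by_contra h0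
      exact hk' (ht (Finsupp.mem_support_iff.2 h0))
    · rw [← ht', Finsupp.linearCombination_apply, Finsupp.sum_fintype]
      intro i
      rw [zero_smul]
  choose t ht ht' using h1
  have e1 : (Matrix.of fun a k => B k a) * (1 - Matrix.of fun k' k => t k k') =
      (Matrix.of fun a k => N k a) * Matrix.diagonal lam := by
    rw [mul_sub, mul_one]
    ext a k
    rw [Matrix.sub_apply, Matrix.mul_apply, Matrix.mul_diagonal]
    simp only [Matrix.of_apply]
    have h3 := congrFun (ht' k) a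
    simp only [Pi.sub_apply, Pi.smul_apply, smul_eq_mul, Finset.sum_apply] at h3
    have h4 : ∑ j, B j a * t k j = ∑ k', t k k' * B k' a :=
      Finset.sum_congr rfl fun _ _ => mul_comm _ _
    rw [h4, ← h3]
    ring
  have e2 : Matrix.det (1 - Matrix.of fun k' k => t k k') = 1 := by
    have hb : (1 - Matrix.of fun k' k => t k k').BlockTriangular ρ := by
      intro i j hij
      rw [Matrix.sub_apply, Matrix.of_apply, ht j i (by omega), sub_zero,
        Matrix.one_apply_ne (fun h => by rw [h] at hij; exact lt_irrefl _ hij)]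
    rw [hb.det]
    refine Finset.prod_eq_one fun a _ => ?_
    have h5 : (1 - Matrix.of fun k' k => t k k').toSquareBlock ρ a = 1 := by
      ext i j
      rw [Matrix.toSquareBlock_def, Matrix.of_apply, Matrix.sub_apply, Matrix.of_apply,
        ht j i (by rw [i.2, j.2]; exact lt_irrefl _), sub_zero]
      by_cases hij : i = j
      · rw [hij, Matrix.one_apply_eq, Matrix.one_apply_eq]
      · rw [Matrix.one_apply_ne hij, Matrix.one_apply_ne (fun h => hij (Subtype.ext h))]
    rw [h5, Matrix.det_one]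
  have e3 := congrArg Matrix.det e1
  rw [Matrix.det_mul, Matrix.det_mul, e2, mul_one, Matrix.det_diagonal] at e3
  rw [e3, mul_comm]

/-- LOCDET -/
theorem locdet (v : Valuation L ℤᵐ⁰) (B N : ι → ι → L) (lam : ι → L) (ρ : ι → ℕ) (σ : ι → ℤᵐ⁰)
    (h : ∀ k, B k - lam k • N k ∈ Submodule.span L {u | ∃ k', ρ k' < ρ k ∧ B k' = u})
    (hN : ∀ k a, v (N k a) ≤ σ k) :
    v (Matrix.det (Matrix.of fun a k => B k a)) ≤ ∏ k, (v (lam k) * σ k) := by
  rw [det_replace B N lam ρ h, map_mul, map_prod, Finset.prod_mul_distrib]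
  exact mul_le_mul' le_rfl (v_det_le v _ σ fun a k => hN k a)

/-- LOCDET for rows indexed by another type -/
theorem locdet' {R : Type} [Fintype R] [DecidableEq R] (e : ι ≃ R) (v : Valuation L ℤᵐ⁰)
    (B N : ι → R → L) (lam : ι → L) (ρ : ι → ℕ) (σ : ι → ℤᵐ⁰)
    (h : ∀ k, B k - lam k • N k ∈ Submodule.span L {u | ∃ k', ρ k' < ρ k ∧ B k' = u})
    (hN : ∀ k a, v (N k a) ≤ σ k) :
    v (Matrix.det (Matrix.of fun a k => B k (e a))) ≤ ∏ k, (v (lam k) * σ k) := by
  refine locdet v (fun k a => B k (e a)) (fun k a => N k (e a)) lam ρ σ (fun k => ?_)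
    fun k a => hN k _
  have h1 := Submodule.mem_map_of_mem (f := LinearMap.funLeft L L e) (h k)
  rw [Submodule.map_span] at h1
  have h2 : (LinearMap.funLeft L L e) '' {u | ∃ k', ρ k' < ρ k ∧ B k' = u} =
      {u | ∃ k', ρ k' < ρ k ∧ (fun a => B k' (e a)) = u} := by
    ext u
    constructor
    · rintro ⟨_, ⟨k', hk', rfl⟩, rfl⟩
      exact ⟨k', hk', rfl⟩
    · rintro ⟨k', hk', rfl⟩
      exact ⟨_, ⟨k', hk', rfl⟩, rfl⟩
  rw [h2] at h1
  exact h1

end

end Pool.Agent.Sharp
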