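import Mathlib

/-!
# MP_c7af3c_ag, project SHARP: Lemma A (linear algebra of pairs) (helper26)
-/

set_option autoImplicit false
set_option linter.unusedSectionVars false

namespace Pool.Agent.Sharp.LA

section rank1
variable {L M Q ι : Type} [Field L] [AddCommGroup M] [Module L M] [AddCommGroup Q] [Module L Q]

theorem exists_coord {q : Q} (hq : q ≠ 0) : ∃ g : Q →ₗ[L] L, ∀ c : L, g (c • q) = c := by
  obtain ⟨g, hg⟩ := (LinearMap.toSpanSingleton L Q q).exists_leftInverse_of_injective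
    (LinearMap.ker_toSpanSingleton L hq)
  refine ⟨g, fun c => ?_⟩
  have h := LinearMap.congr_fun hg c
  simpa using h

theorem mem_span_single_comm {a b : Q} (h : a ∈ Submodule.span L {b}) (ha : a ≠ 0) :
    b ∈ Submodule.span L {a} := by
  rw [Submodule.mem_span_singleton] at h ⊢
  obtain ⟨c, rfl⟩ := h
  have hc : c ≠ 0 := fun h => ha (by rw [h, zero_smul])
  exact ⟨c⁻¹, by rw [smul_smul, inv_mul_cancel₀ hc, one_smul]⟩

theorem mem_span_single_trans {a b e : Q} (h : a ∈ Submodule.span L {b})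
    (h' : b ∈ Submodule.span L {e}) : a ∈ Submodule.span L {e} := by
  rw [Submodule.mem_span_singleton] at h h' ⊢
  obtain ⟨c, rfl⟩ := h
  obtain ⟨c', rfl⟩ := h'
  exact ⟨c * c', by rw [mul_smul]⟩

/-- RANK1: maps of rank at most one with images not in a line kill a common hyperplane -/
theorem rank1 (b : ι → M) (hb : Submodule.span L (Set.range b) = ⊤) (A : Set (M →ₗ[L] Q))
    (hadd : ∀ φ ∈ A, ∀ ψ ∈ A, φ + ψ ∈ A)
    (h1 : ∀ φ ∈ A, ∀ i i', φ (b i) ≠ 0 → φ (b i') ∈ Submodule.span L {φ (b i)})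
    (h2 : ∀ q : Q, ∃ φ ∈ A, ∃ u, φ u ∉ Submodule.span L {q}) :
    ∃ f : M →ₗ[L] L, f ≠ 0 ∧ (∀ φ ∈ A, ∀ u, f u = 0 → φ u = 0) ∧
      ∀ u, (∀ φ ∈ A, φ u = 0) → f u = 0 := by
  -- rank one
  have hR : ∀ φ ∈ A, ∀ u u', φ u ≠ 0 → φ u' ∈ Submodule.span L {φ u} := by
    intro φ hφ u u' hu
    obtain ⟨i, hi⟩ : ∃ i, φ (b i) ≠ 0 := by
      by_contra hcon
      push Not at hcon
      apply hu
      have : (⊤ : Submodule L M) ≤ LinearMap.ker φ := by
        rw [← hb, Submodule.span_le]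
        rintro _ ⟨i, rfl⟩
        exact hcon i
      exact this (Submodule.mem_top (x := u))
    have hall : ∀ v, φ v ∈ Submodule.span L {φ (b i)} := by
      intro v
      have : (⊤ : Submodule L M) ≤ (Submodule.span L {φ (b i)}).comap φ := by
        rw [← hb, Submodule.span_le]
        rintro _ ⟨i', rfl⟩
        exact h1 φ hφ i i' hi
      exact this (Submodule.mem_top (x := v))
    exact mem_span_single_trans (hall u') (mem_span_single_comm (hall u) hu)
  -- equal kernels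
  have hS : ∀ φ ∈ A, ∀ ψ ∈ A, ∀ u0 u1, φ u0 ≠ 0 → ψ u1 ∉ Submodule.span L {φ u0} →
      ∀ u, φ u = 0 ↔ ψ u = 0 := by
    intro φ hφ ψ hψ u0 u1 h0 h1' u
    constructor
    · intro hu
      by_contra hc
      apply h1'
      have e1 : (φ + ψ) u = ψ u := by rw [LinearMap.add_apply, hu, zero_add]
      have e2 := hR (φ + ψ) (hadd φ hφ ψ hψ) u u0 (by rw [e1]; exact hc)
      rw [e1, LinearMap.add_apply] at e2
      have e3 := hR ψ hψ u u0 hc
      have e4 : φ u0 ∈ Submodule.span L {ψ u} := by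
        have := Submodule.sub_mem _ e2 e3
        rwa [add_sub_cancel_right] at this
      have e5 := hR ψ hψ u u1 hc
      exact mem_span_single_trans e5 (mem_span_single_comm e4 h0)
    · intro hu
      by_contra hc
      apply h1'
      have e1 : (φ + ψ) u = φ u := by rw [LinearMap.add_apply, hu, add_zero]
      have e2 := hR (φ + ψ) (hadd φ hφ ψ hψ) u u1 (by rw [e1]; exact hc)
      rw [e1, LinearMap.add_apply] at e2
      have e3 := hR φ hφ u u1 hc
      have e4 : ψ u1 ∈ Submodule.span L {φ u} := by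
        have := Submodule.sub_mem _ e2 e3
        rwa [add_sub_cancel_left] at this
      exact mem_span_single_trans e4 (hR φ hφ u0 u h0)
  obtain ⟨φ0, hφ0, u0, hu0⟩ := h2 0
  have hu0' : φ0 u0 ≠ 0 := fun h => hu0 (by rw [h]; exact Submodule.zero_mem _)
  have hker : ∀ ψ ∈ A, ∀ u, φ0 u = 0 → ψ u = 0 := by
    intro ψ hψ u hu
    by_cases hc : ∃ u1, ψ u1 ∉ Submodule.span L {φ0 u0}
    · obtain ⟨u1, hu1⟩ := hc
      exact (hS φ0 hφ0 ψ hψ u0 u1 hu0' hu1 u).1 hu
    · push Not at hc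
      by_contra hne
      obtain ⟨χ, hχ, u2, hu2⟩ := h2 (φ0 u0)
      have e1 := (hS φ0 hφ0 χ hχ u0 u2 hu0' hu2 u).1 hu
      have e2 : χ u2 ∉ Submodule.span L {ψ u} := fun h =>
        hu2 (mem_span_single_trans h (hc u))
      exact hne ((hS ψ hψ χ hχ u u2 hne e2 u).2 e1)
  obtain ⟨g, hg⟩ := exists_coord (L := L) hu0'
  refine ⟨g.comp φ0, ?_, ?_, ?_⟩
  · intro h
    have := LinearMap.congr_fun h u0
    rw [LinearMap.comp_apply, LinearMap.zero_apply] at this
    have h2 := hg 1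
    rw [one_smul, this] at h2
    exact zero_ne_one h2
  · intro φ hφ u hu
    apply hker φ hφ u
    have h := hR φ0 hφ0 u0 u hu0'
    rw [Submodule.mem_span_singleton] at h
    obtain ⟨c, hc⟩ := h
    rw [LinearMap.comp_apply, ← hc, hg] at hu
    rw [← hc, hu, zero_smul]
  · intro u hu
    rw [LinearMap.comp_apply, hu φ0 hφ0, map_zero]

end rank1

section main
variable {L M V ι : Type} [Field L] [AddCommGroup M] [Module L M] [AddCommGroup V] [Module L V]
  [FiniteDimensional L V] (b : ι → M) (A : Set (M →ₗ[L] V))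

/-- the span of a pair -/
def pl (φ : M →ₗ[L] V) (i i' : ι) : Submodule L V := Submodule.span L {φ (b i), φ (b i')}

/-- the pair is independent modulo `U` -/
def Pr (U : Submodule L V) (φ : M →ₗ[L] V) (i i' : ι) : Prop :=
  Module.finrank L (U ⊔ pl b φ i i' : Submodule L V) = Module.finrank L U + 2

/-- the sum of the images of a subspace -/
def Im (H : Submodule L M) : Submodule L V := ⨆ φ ∈ A, H.map φ

theorem Im_le {H : Submodule L M} {U : Submodule L V} :
    Im A H ≤ U ↔ ∀ φ ∈ A, ∀ u ∈ H, φ u ∈ U := by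
  unfold Im
  simp only [iSup_le_iff, Submodule.map_le_iff_le_comap]
  exact Iff.rfl

theorem mem_Im {H : Submodule L M} {φ : M →ₗ[L] V} (hφ : φ ∈ A) {u : M} (hu : u ∈ H) :
    φ u ∈ Im A H := (Im_le A).1 le_rfl φ hφ u hu

theorem finrank_sup_span_singleton_le (U : Submodule L V) (a : V) :
    Module.finrank L (U ⊔ Submodule.span L {a} : Submodule L V) ≤ Module.finrank L U + 1 := by
  have h1 := Submodule.finrank_add_le_finrank_add_finrank U (Submodule.span L {a})
  have h2 : Module.finrank L (Submodule.span L {a}) ≤ 1 := by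
    have := finrank_span_le_card (R := L) ({a} : Set V)
    simpa using this
  exact h1.trans (Nat.add_le_add_left h2 _)

theorem finrank_sup_singleton_lt {U : Submodule L V} {a : V} (ha : a ∉ U) :
    Module.finrank L (U ⊔ Submodule.span L {a} : Submodule L V) = Module.finrank L U + 1 := by
  refine le_antisymm (finrank_sup_span_singleton_le U a) ?_
  refine Submodule.finrank_lt_finrank_of_lt ?_
  refine lt_of_le_of_ne le_sup_left fun h => ha ?_
  rw [h]
  exact Submodule.mem_sup_right (Submodule.mem_span_singleton_self a)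

theorem sup_pair (U : Submodule L V) (a e : V) :
    U ⊔ Submodule.span L {a, e} = (U ⊔ Submodule.span L {a}) ⊔ Submodule.span L {e} := by
  rw [Submodule.span_insert, sup_assoc]

theorem finrank_sup_pl_le (U : Submodule L V) (φ : M →ₗ[L] V) (i i' : ι) :
    Module.finrank L (U ⊔ pl b φ i i' : Submodule L V) ≤ Module.finrank L U + 2 := by
  unfold pl
  rw [sup_pair]
  exact (finrank_sup_span_singleton_le _ _).trans
    (Nat.succ_le_succ (finrank_sup_span_singleton_le _ _))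

theorem Pr_of {U : Submodule L V} {φ : M →ₗ[L] V} {i i' : ι} (h1 : φ (b i) ∉ U)
    (h2 : φ (b i') ∉ U ⊔ Submodule.span L {φ (b i)}) : Pr b U φ i i' := by
  unfold Pr pl
  rw [sup_pair, finrank_sup_singleton_lt h2, finrank_sup_singleton_lt h1]

theorem pl_left (φ : M →ₗ[L] V) (i i' : ι) : φ (b i) ∈ pl b φ i i' :=
  Submodule.subset_span (by simp)

theorem pl_right (φ : M →ₗ[L] V) (i i' : ι) : φ (b i') ∈ pl b φ i i' :=
  Submodule.subset_span (by simp)

theorem pl_le_Im {φ : M →ₗ[L] V} (hφ : φ ∈ A) (i i' : ι) : pl b φ i i' ≤ Im A ⊤ := by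
  unfold pl
  rw [Submodule.span_le]
  rintro u (rfl | rfl)
  · exact mem_Im A hφ Submodule.mem_top
  · exact mem_Im A hφ Submodule.mem_top

theorem le_of_basis {b : ι → M} (hb : Submodule.span L (Set.range b) = ⊤) {φ : M →ₗ[L] V}
    {U : Submodule L V} (h : ∀ i, φ (b i) ∈ U) (u : M) : φ u ∈ U := by
  have : (⊤ : Submodule L M) ≤ U.comap φ := by
    rw [← hb, Submodule.span_le]
    rintro _ ⟨i', rfl⟩
    exact h i'
  exact this (Submodule.mem_top (x := u))

/-- RANK1 modulo a subspace -/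
theorem rank1_mod {b : ι → M} (hb : Submodule.span L (Set.range b) = ⊤)
    (hadd : ∀ φ ∈ A, ∀ ψ ∈ A, φ + ψ ∈ A) (U : Submodule L V)
    (h1 : ∀ φ ∈ A, ∀ i i', ¬ Pr b U φ i i')
    (h2 : Module.finrank L U + 2 ≤ Module.finrank L (U ⊔ Im A ⊤ : Submodule L V)) :
    ∃ f : M →ₗ[L] L, f ≠ 0 ∧ (∀ φ ∈ A, ∀ u, f u = 0 → φ u ∈ U) ∧
      ∀ u, (∀ φ ∈ A, φ u ∈ U) → f u = 0 := by
  obtain ⟨f, hf, hf1, hf2⟩ := rank1 (L := L) (Q := V ⧸ U) b hb ((fun φ => U.mkQ.comp φ) '' A)
    (by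
      rintro _ ⟨φ, hφ, rfl⟩ _ ⟨ψ, hψ, rfl⟩
      exact ⟨φ + ψ, hadd φ hφ ψ hψ, LinearMap.comp_add _ _ _⟩)
    (by
      rintro _ ⟨φ, hφ, rfl⟩ i i' hi
      have hi' : φ (b i) ∉ U := fun h => hi (by
        rw [LinearMap.comp_apply, Submodule.mkQ_apply]
        exact (Submodule.Quotient.mk_eq_zero U).2 h)
      have h3 : φ (b i') ∈ U ⊔ Submodule.span L {φ (b i)} := by
        by_contra hc
        exact h1 φ hφ i i' (Pr_of b hi' hc)
      rw [Submodule.mem_sup] at h3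
      obtain ⟨a, ha, e, he, hae⟩ := h3
      rw [Submodule.mem_span_singleton] at he ⊢
      obtain ⟨c, rfl⟩ := he
      refine ⟨c, ?_⟩
      rw [LinearMap.comp_apply, LinearMap.comp_apply, ← hae, map_add, map_smul,
        Submodule.mkQ_apply U a, (Submodule.Quotient.mk_eq_zero U).2 ha, zero_add])
    (by
      intro q
      obtain ⟨a, rfl⟩ := U.mkQ_surjective q
      by_contra hcon
      push Not at hcon
      have h3 : U ⊔ Im A ⊤ ≤ U ⊔ Submodule.span L {a} := by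
        refine sup_le le_sup_left ?_
        rw [Im_le]
        intro φ hφ u _
        have h4 := hcon _ ⟨φ, hφ, rfl⟩ u
        rw [Submodule.mem_span_singleton] at h4
        obtain ⟨c, hc⟩ := h4
        rw [LinearMap.comp_apply, ← map_smul, ← sub_eq_zero, ← map_sub, Submodule.mkQ_apply,
          Submodule.Quotient.mk_eq_zero] at hc
        have h5 : φ u = -(c • a - φ u) + c • a := by abel
        rw [h5]
        exact Submodule.add_mem _ (Submodule.mem_sup_left (Submodule.neg_mem _ hc))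
          (Submodule.mem_sup_right (Submodule.smul_mem _ _
            (Submodule.mem_span_singleton_self a)))
      have h6 := Submodule.finrank_mono h3
      have h7 := finrank_sup_span_singleton_le U a
      omega)
  refine ⟨f, hf, fun φ hφ u hu => ?_, fun u hu => hf2 u ?_⟩
  · have := hf1 _ ⟨φ, hφ, rfl⟩ u hu
    rwa [LinearMap.comp_apply, Submodule.mkQ_apply, Submodule.Quotient.mk_eq_zero] at this
  · rintro _ ⟨φ, hφ, rfl⟩
    rw [LinearMap.comp_apply, Submodule.mkQ_apply, Submodule.Quotient.mk_eq_zero]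
    exact hu φ hφ

/-- two proper subgroups do not cover -/
theorem two_sub (hadd : ∀ φ ∈ A, ∀ ψ ∈ A, φ + ψ ∈ A) (P R : Submodule L (M →ₗ[L] V))
    (h1 : ∃ φ ∈ A, φ ∉ P) (h2 : ∃ φ ∈ A, φ ∉ R) : ∃ φ ∈ A, φ ∉ P ∧ φ ∉ R := by
  obtain ⟨φ, hφ, hφ'⟩ := h1
  obtain ⟨ψ, hψ, hψ'⟩ := h2
  by_cases c1 : φ ∈ R
  · by_cases c2 : ψ ∈ P
    · refine ⟨φ + ψ, hadd φ hφ ψ hψ, fun h => hφ' ?_, fun h => hψ' ?_⟩
      · exact (Submodule.add_mem_iff_left P c2).1 h
      · exact (Submodule.add_mem_iff_right R c1).1 h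
    · exact ⟨ψ, hψ, c2, hψ'⟩
  · exact ⟨φ, hφ, hφ', c1⟩

/-- maps sending `H` into `U` -/
def MapsTo (H : Submodule L M) (U : Submodule L V) : Submodule L (M →ₗ[L] V) where
  carrier := {φ | ∀ u ∈ H, φ u ∈ U}
  add_mem' := by
    intro φ ψ hφ hψ u hu
    exact Submodule.add_mem _ (hφ u hu) (hψ u hu)
  zero_mem' := by
    intro u _
    exact Submodule.zero_mem _
  smul_mem' := by
    intro c φ hφ u hu
    exact Submodule.smul_mem _ _ (hφ u hu)

/-- LEMMA B -/
theorem lemB {b : ι → M} (hb : Submodule.span L (Set.range b) = ⊤)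
    (hadd : ∀ φ ∈ A, ∀ ψ ∈ A, φ + ψ ∈ A) (U : Submodule L V)
    (h1 : ∀ φ ∈ A, ∀ ψ ∈ A, ∀ i i' j j', Pr b U φ i i' → ¬ Pr b (U ⊔ pl b φ i i') ψ j j')
    (h2 : Module.finrank L U + 4 ≤ Module.finrank L (U ⊔ Im A ⊤ : Submodule L V))
    {φ1 : M →ₗ[L] V} (hφ1 : φ1 ∈ A) {i1 i1' : ι} (hp : Pr b U φ1 i1 i1') (f : M →ₗ[L] L)
    (hf : ∀ φ ∈ A, ∀ u, f u = 0 → φ u ∈ U ⊔ pl b φ1 i1 i1') :
    U ⊔ Im A (LinearMap.ker f) ≠ U ⊔ pl b φ1 i1 i1' := by
  intro hK
  set U1 := U ⊔ pl b φ1 i1 i1' with hU1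
  have hU1r : Module.finrank L U1 = Module.finrank L U + 2 := hp
  obtain ⟨φ, hφ, hφP, hφR⟩ := two_sub A hadd (MapsTo ⊤ U1) (MapsTo (LinearMap.ker f) U)
    (by
      by_contra hcon
      push Not at hcon
      have h3 : U ⊔ Im A ⊤ ≤ U1 := sup_le le_sup_left ((Im_le A).2 hcon)
      have := Submodule.finrank_mono h3
      omega)
    (by
      by_contra hcon
      push Not at hcon
      have h3 : U ⊔ Im A (LinearMap.ker f) ≤ U := sup_le le_rfl ((Im_le A).2 hcon)
      rw [hK] at h3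
      have := Submodule.finrank_mono h3
      omega)
  obtain ⟨i, hi⟩ : ∃ i, φ (b i) ∉ U1 := by
    by_contra hcon
    push Not at hcon
    exact hφP fun u _ => le_of_basis hb hcon u
  have hiU : φ (b i) ∉ U := fun h => hi (Submodule.mem_sup_left h)
  obtain ⟨i', hi'⟩ : ∃ i', φ (b i') ∉ U ⊔ Submodule.span L {φ (b i)} := by
    by_contra hcon
    push Not at hcon
    apply hφR
    intro u hu
    have h3 := le_of_basis hb hcon u
    have h4 : φ u ∈ U1 := hf φ hφ u hu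
    rw [Submodule.mem_sup] at h3
    obtain ⟨a, ha, e, he, hae⟩ := h3
    rw [Submodule.mem_span_singleton] at he
    obtain ⟨c, rfl⟩ := he
    have h5 : c • φ (b i) ∈ U1 := by
      have : c • φ (b i) = φ u - a := by rw [← hae]; abel
      rw [this]
      exact Submodule.sub_mem _ h4 (Submodule.mem_sup_left ha)
    have hc : c = 0 := by
      by_contra hc
      exact hi ((Submodule.smul_mem_iff _ hc).1 h5)
    rw [← hae, hc, zero_smul, add_zero]
    exact ha
  have hp2 : Pr b U φ i i' := Pr_of b hiU hi'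
  set U2 := U ⊔ pl b φ i i' with hU2
  have hU2r : Module.finrank L U2 = Module.finrank L U + 2 := hp2
  have hle : U ⊔ Im A ⊤ ≤ U2 ⊔ Im A ⊤ := sup_le_sup_right le_sup_left _
  obtain ⟨f2, hf2, hf2a, hf2b⟩ := rank1_mod A hb hadd U2
    (fun ψ hψ j j' => h1 φ hφ ψ hψ i i' j j' hp2) (by
      have := Submodule.finrank_mono hle
      omega)
  by_cases hker : ∀ u, f u = 0 → f2 u = 0
  · -- same hyperplane
    have h3 : U1 ≤ U2 := by
      rw [← hK]
      refine sup_le le_sup_left ((Im_le A).2 fun ψ hψ u hu => hf2a ψ hψ u (hker u hu))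
    have h4 : U1 = U2 := Submodule.eq_of_le_of_finrank_eq h3 (by rw [hU1r, hU2r])
    apply hi
    rw [h4, hU2]
    exact Submodule.mem_sup_right (pl_left b φ i i')
  · push Not at hker
    obtain ⟨u1, hu1, hu1'⟩ := hker
    have h3 : Im A ⊤ ≤ U1 ⊔ U2 := by
      rw [Im_le]
      intro ψ hψ u _
      have e1 : ψ u = (f2 u / f2 u1) • ψ u1 + ψ (u - (f2 u / f2 u1) • u1) := by
        rw [map_sub, map_smul]
        abel
      rw [e1]
      refine Submodule.add_mem _ (Submodule.smul_mem _ _ (Submodule.mem_sup_left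
        (hf ψ hψ u1 hu1))) (Submodule.mem_sup_right (hf2a ψ hψ _ ?_))
      rw [map_sub, map_smul, smul_eq_mul, div_mul_cancel₀ _ hu1', sub_self]
    have h4 : U ⊔ Im A ⊤ ≤ U1 ⊔ pl b φ i i' := by
      refine sup_le (le_sup_left.trans le_sup_left) (h3.trans ?_)
      refine sup_le le_sup_left ?_
      rw [hU2]
      exact sup_le (le_sup_left.trans le_sup_left) le_sup_right
    have h5 := Submodule.finrank_mono h4
    have h6 := finrank_sup_pl_le b U1 φ i i'
    refine h1 φ1 hφ1 φ hφ i1 i1' i i' hp ?_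
    unfold Pr
    rw [← hU1]
    omega

/-- the conclusion of Lemma A -/
def Conc (A : Set (M →ₗ[L] V)) (U : Submodule L V) (s : ℕ) : Prop :=
  ∃ f : M →ₗ[L] L, f ≠ 0 ∧ (∀ u, (∀ φ ∈ A, φ u = 0) → f u = 0) ∧
    Module.finrank L (U ⊔ Im A (LinearMap.ker f) : Submodule L V) ≤ Module.finrank L U + s

theorem lemA0 {b : ι → M} (hb : Submodule.span L (Set.range b) = ⊤)
    (hadd : ∀ φ ∈ A, ∀ ψ ∈ A, φ + ψ ∈ A) (U : Submodule L V)
    (h1 : ∀ φ ∈ A, ∀ i i', ¬ Pr b U φ i i')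
    (h2 : Module.finrank L U + 2 ≤ Module.finrank L (U ⊔ Im A ⊤ : Submodule L V)) :
    Conc A U 0 := by
  obtain ⟨f, hf, hf1, hf2⟩ := rank1_mod A hb hadd U h1 h2
  refine ⟨f, hf, fun u hu => hf2 u fun φ hφ => by rw [hu φ hφ]; exact Submodule.zero_mem _, ?_⟩
  have h3 : U ⊔ Im A (LinearMap.ker f) ≤ U := sup_le le_rfl ((Im_le A).2 fun φ hφ u hu =>
    hf1 φ hφ u hu)
  exact Submodule.finrank_mono h3

theorem Conc.mono {A : Set (M →ₗ[L] V)} {U : Submodule L V} {s s' : ℕ} (h : Conc A U s)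
    (hs : s ≤ s') : Conc A U s' := by
  obtain ⟨f, h1, h2, h3⟩ := h
  exact ⟨f, h1, h2, by omega⟩

theorem lemA1 {b : ι → M} (hb : Submodule.span L (Set.range b) = ⊤)
    (hadd : ∀ φ ∈ A, ∀ ψ ∈ A, φ + ψ ∈ A) (U : Submodule L V)
    (h1 : ∀ φ ∈ A, ∀ ψ ∈ A, ∀ i i' j j', Pr b U φ i i' → ¬ Pr b (U ⊔ pl b φ i i') ψ j j')
    (h2 : Module.finrank L U + 4 ≤ Module.finrank L (U ⊔ Im A ⊤ : Submodule L V)) :
    Conc A U 1 := by
  by_cases hc : ∃ φ1 ∈ A, ∃ i1 i1', Pr b U φ1 i1 i1'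
  · obtain ⟨φ1, hφ1, i1, i1', hp⟩ := hc
    have hp' : Module.finrank L (U ⊔ pl b φ1 i1 i1' : Submodule L V) =
      Module.finrank L U + 2 := hp
    have hle : U ⊔ Im A ⊤ ≤ (U ⊔ pl b φ1 i1 i1') ⊔ Im A ⊤ := sup_le_sup_right le_sup_left _
    obtain ⟨f, hf, hf1, hf2⟩ := rank1_mod A hb hadd (U ⊔ pl b φ1 i1 i1')
      (fun ψ hψ j j' => h1 φ1 hφ1 ψ hψ i1 i1' j j' hp) (by
        have := Submodule.finrank_mono hle
        omega)
    refine ⟨f, hf, fun u hu => hf2 u fun φ hφ => by rw [hu φ hφ]; exact Submodule.zero_mem _, ?_⟩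
    have h3 : U ⊔ Im A (LinearMap.ker f) ≤ U ⊔ pl b φ1 i1 i1' :=
      sup_le le_sup_left ((Im_le A).2 fun φ hφ u hu => hf1 φ hφ u hu)
    have h4 := lemB A hb hadd U h1 h2 hφ1 hp f hf1
    have h5 := Submodule.finrank_lt_finrank_of_lt (lt_of_le_of_ne h3 h4)
    omega
  · push Not at hc
    exact (lemA0 A hb hadd U hc (by omega)).mono (by omega)

theorem lemA2 {b : ι → M} (hb : Submodule.span L (Set.range b) = ⊤)
    (hadd : ∀ φ ∈ A, ∀ ψ ∈ A, φ + ψ ∈ A) (U : Submodule L V)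
    (h1 : ∀ φ ∈ A, ∀ ψ ∈ A, ∀ χ ∈ A, ∀ i i' j j' k k', Pr b U φ i i' →
      Pr b (U ⊔ pl b φ i i') ψ j j' → ¬ Pr b (U ⊔ pl b φ i i' ⊔ pl b ψ j j') χ k k')
    (h2 : Module.finrank L U + 6 ≤ Module.finrank L (U ⊔ Im A ⊤ : Submodule L V)) :
    Conc A U 2 := by
  by_cases hc : ∃ φ ∈ A, ∃ ψ ∈ A, ∃ i i' j j', Pr b U φ i i' ∧ Pr b (U ⊔ pl b φ i i') ψ j j'
  · obtain ⟨φ, hφ, ψ, hψ, i, i', j, j', hp, hp2⟩ := hc
    have hp' : Module.finrank L (U ⊔ pl b φ i i' : Submodule L V) =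
      Module.finrank L U + 2 := hp
    have hp2' : Module.finrank L (U ⊔ pl b φ i i' ⊔ pl b ψ j j' : Submodule L V) =
      Module.finrank L (U ⊔ pl b φ i i' : Submodule L V) + 2 := hp2
    set U12 := U ⊔ pl b φ i i' ⊔ pl b ψ j j' with hU12
    have hUle : U ≤ U12 := le_sup_left.trans le_sup_left
    have hle : U ⊔ Im A ⊤ ≤ U12 ⊔ Im A ⊤ := sup_le_sup_right hUle _
    obtain ⟨f, hf, hf1, hf2⟩ := rank1_mod A hb hadd U12
      (fun χ hχ k k' => h1 φ hφ ψ hψ χ hχ i i' j j' k k' hp hp2) (by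
        have := Submodule.finrank_mono hle
        omega)
    refine ⟨f, hf, fun u hu => hf2 u fun φ hφ => by rw [hu φ hφ]; exact Submodule.zero_mem _, ?_⟩
    set K := U ⊔ Im A (LinearMap.ker f) with hK
    have hK12 : K ≤ U12 := sup_le hUle ((Im_le A).2 fun φ hφ u hu => hf1 φ hφ u hu)
    by_contra hcon
    push Not at hcon
    -- the two planes
    have key : ∀ (φ' : M →ₗ[L] V) (hφ' : φ' ∈ A) (a a' : ι) (ψ' : M →ₗ[L] V) (hψ' : ψ' ∈ A)
        (e e' : ι), U ⊔ pl b φ' a a' ⊔ pl b ψ' e e' = U12 → Pr b U φ' a a' →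
        ¬ pl b φ' a a' ≤ K → False := by
      intro φ' hφ' a a' ψ' hψ' e e' hU hpr hnle
      have hpr' : Module.finrank L (U ⊔ pl b φ' a a' : Submodule L V) =
        Module.finrank L U + 2 := hpr
      have hpr2 : Pr b (U ⊔ pl b φ' a a') ψ' e e' := by
        unfold Pr
        rw [hU]
        omega
      have hle2 : U ⊔ Im A ⊤ ≤ (U ⊔ pl b φ' a a') ⊔ Im A ⊤ := sup_le_sup_right le_sup_left _
      refine lemB A hb hadd (U ⊔ pl b φ' a a')
        (fun χ hχ χ' hχ' k k' m m' q1 => h1 φ' hφ' χ hχ χ' hχ' a a' k k' m m' hpr q1) (by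
          have := Submodule.finrank_mono hle2
          omega) hψ' hpr2 f (fun χ hχ u hu => by rw [hU]; exact hf1 χ hχ u hu) ?_
      rw [hU]
      have e1 : U ⊔ pl b φ' a a' ⊔ Im A (LinearMap.ker f) = K ⊔ pl b φ' a a' := by
        rw [hK, sup_assoc, sup_comm (pl b φ' a a'), ← sup_assoc]
      rw [e1]
      have h3 : K ⊔ pl b φ' a a' ≤ U12 := by
        refine sup_le hK12 ?_
        rw [← hU]
        exact le_sup_right.trans le_sup_left
      have h4 : K < K ⊔ pl b φ' a a' := lt_of_le_of_ne le_sup_left fun h =>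
        hnle (by rw [h]; exact le_sup_right)
      have h5 := Submodule.finrank_lt_finrank_of_lt h4
      exact Submodule.eq_of_le_of_finrank_le h3 (by omega)
    by_cases c1 : pl b φ i i' ≤ K
    · by_cases c2 : pl b ψ j j' ≤ K
      · -- K = U12
        have h3 : U12 = K := le_antisymm (sup_le (sup_le le_sup_left c1) c2) hK12
        have hle2 : U ⊔ Im A ⊤ ≤ (U ⊔ pl b φ i i') ⊔ Im A ⊤ := sup_le_sup_right le_sup_left _
        refine lemB A hb hadd (U ⊔ pl b φ i i')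
          (fun χ hχ χ' hχ' k k' m m' q1 => h1 φ hφ χ hχ χ' hχ' i i' k k' m m' hp q1) (by
            have := Submodule.finrank_mono hle2
            omega) hψ hp2 f (fun χ hχ u hu => hf1 χ hχ u hu) ?_
        have e1 : U ⊔ pl b φ i i' ⊔ Im A (LinearMap.ker f) = K ⊔ pl b φ i i' := by
          rw [hK, sup_assoc, sup_comm (pl b φ i i'), ← sup_assoc]
        rw [e1, ← hU12, h3]
        exact sup_eq_left.2 c1
      · have hU21 : U ⊔ pl b ψ j j' ⊔ pl b φ i i' = U12 := by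
          rw [hU12, sup_assoc, sup_comm (pl b ψ j j'), ← sup_assoc]
        refine key ψ hψ j j' φ hφ i i' hU21 ?_ c2
        unfold Pr
        have h3 := finrank_sup_pl_le b (U ⊔ pl b ψ j j') φ i i'
        rw [hU21] at h3
        have h4 := finrank_sup_pl_le b U ψ j j'
        omega
    · exact key φ hφ i i' ψ hψ j j' rfl hp c1
  · push Not at hc
    exact (lemA1 A hb hadd U (fun φ hφ ψ hψ i i' j j' h => hc φ hφ ψ hψ i i' j j' h)
      (by omega)).mono (by omega)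

/-- `P` independent pairs modulo `U` -/
def HasPairs (b : ι → M) (A : Set (M →ₗ[L] V)) (U : Submodule L V) (P : ℕ) : Prop :=
  ∃ (φ : Fin P → M →ₗ[L] V) (i i' : Fin P → ι), (∀ j, φ j ∈ A) ∧
    Module.finrank L (U ⊔ ⨆ j, pl b (φ j) (i j) (i' j) : Submodule L V) =
      Module.finrank L U + 2 * P

theorem HasPairs.zero (U : Submodule L V) : HasPairs b A U 0 := by
  refine ⟨fun _ => 0, fun j => j.elim0, fun j => j.elim0, fun j => j.elim0, ?_⟩
  rw [iSup_of_empty, sup_bot_eq]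
  rfl

theorem HasPairs.succ {b : ι → M} {A : Set (M →ₗ[L] V)} {U : Submodule L V} {P : ℕ}
    {φ : M →ₗ[L] V} (hφ : φ ∈ A) {i i' : ι}
    (h : Pr b U φ i i') (h' : HasPairs b A (U ⊔ pl b φ i i') P) : HasPairs b A U (P + 1) := by
  obtain ⟨ψ, j, j', h1, h2⟩ := h'
  refine ⟨Fin.cons φ ψ, Fin.cons i j, Fin.cons i' j', fun k => ?_, ?_⟩
  · refine Fin.cases ?_ (fun k => ?_) k
    · exact hφ
    · exact h1 k
  · have e1 : (⨆ k : Fin (P + 1), pl b ((Fin.cons φ ψ : Fin (P + 1) → M →ₗ[L] V) k)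
        ((Fin.cons i j : Fin (P + 1) → ι) k) ((Fin.cons i' j' : Fin (P + 1) → ι) k)) =
        pl b φ i i' ⊔ ⨆ k : Fin P, pl b (ψ k) (j k) (j' k) := by
      apply le_antisymm
      · refine iSup_le fun k => ?_
        refine Fin.cases ?_ (fun k => ?_) k
        · exact le_sup_left
        · exact (le_iSup (fun k => pl b (ψ k) (j k) (j' k)) k).trans le_sup_right
      · refine sup_le ?_ (iSup_le fun k => ?_)
        · exact le_iSup (fun k : Fin (P + 1) => pl b ((Fin.cons φ ψ : Fin (P + 1) → M →ₗ[L] V) k)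
            ((Fin.cons i j : Fin (P + 1) → ι) k) ((Fin.cons i' j' : Fin (P + 1) → ι) k)) 0
        · exact le_iSup (fun k : Fin (P + 1) => pl b ((Fin.cons φ ψ : Fin (P + 1) → M →ₗ[L] V) k)
            ((Fin.cons i j : Fin (P + 1) → ι) k) ((Fin.cons i' j' : Fin (P + 1) → ι) k)) k.succ
    rw [e1, ← sup_assoc, h2, h]
    ring

/-- LEMMA A -/
theorem lemA {b : ι → M} (hb : Submodule.span L (Set.range b) = ⊤)
    (hadd : ∀ φ ∈ A, ∀ ψ ∈ A, φ + ψ ∈ A) (U : Submodule L V) (s : ℕ) (hs : s ≤ 2)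
    (h2 : Module.finrank L U + (2 * s + 2) ≤ Module.finrank L (U ⊔ Im A ⊤ : Submodule L V)) :
    HasPairs b A U (s + 1) ∨ Conc A U s := by
  by_cases hc : HasPairs b A U (s + 1)
  · exact Or.inl hc
  · right
    interval_cases s
    · refine lemA0 A hb hadd U (fun φ hφ i i' hp => hc ?_) (by omega)
      exact HasPairs.succ hφ hp (HasPairs.zero b A _)
    · refine lemA1 A hb hadd U (fun φ hφ ψ hψ i i' j j' hp hp2 => hc ?_) (by omega)
      exact HasPairs.succ hφ hp (HasPairs.succ hψ hp2 (HasPairs.zero b A _))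
    · refine lemA2 A hb hadd U (fun φ hφ ψ hψ χ hχ i i' j j' k k' hp hp2 hp3 => hc ?_) (by omega)
      exact HasPairs.succ hφ hp (HasPairs.succ hψ hp2 (HasPairs.succ hχ hp3
        (HasPairs.zero b A _)))

end main

end Pool.Agent.Sharp.LA
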