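import Pool.Agent.Lib.MP_c7af3c_ag.SHARP.H26.Mu
import Pool.Agent.Lib.MP_c7af3c_ag.SHARP.Base54

/-!
# MP_c7af3c_ag, project SHARP: sizes of the columns, the local estimate (helper26)
-/

set_option autoImplicit false
set_option linter.unusedSectionVars false

namespace Pool.Agent.Sharp

open MvPolynomial WithZero Pool.Agent.Gen

section defs
variable {L : Type} [Field L] {n c : ℕ} {d : Fin c → ℕ} (D : DSys L n c d)
  (x : Fin (n + 1) → L)

/-- `V` of a tuple of forms -/
noncomputable def VT : (Fin c → MvPolynomial (Fin (n + 1)) L) →ₗ[L] (Fin (n + 1) → L) :=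
  ∑ m, (D.V x m).comp (LinearMap.proj m)

theorem VT_apply (G : Fin c → MvPolynomial (Fin (n + 1)) L) :
    VT D x G = ∑ m, D.V x m (G m) := by
  unfold VT
  rw [LinearMap.sum_apply]
  rfl

/-- the vectors `W(p,q)` -/
noncomputable def WT (p q : Fin (n + 1)) : Fin (n + 1) → L :=
  x q • Pi.single p 1 + VT D x fun m => X q * pderiv p (D.F m)

/-- the linear form `X_i - x_i X_j0` -/
noncomputable def lf (j0 i : Fin (n + 1)) : MvPolynomial (Fin (n + 1)) L :=
  X i - C (x i) * X j0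

/-- multiplication of a tuple by a form -/
noncomputable def mulT (A : Fin c → MvPolynomial (Fin (n + 1)) L)
    (l : MvPolynomial (Fin (n + 1)) L) : Fin c → MvPolynomial (Fin (n + 1)) L :=
  fun m => A m * l

/-- the three term forms of a line -/
noncomputable def hT (y : Fin (n + 1) → L) (i j k : Fin (n + 1)) :
    MvPolynomial (Fin (n + 1)) L :=
  C (plu x y i j) * X k - C (plu x y i k) * X j + C (plu x y j k) * X i

/-- tuples of forms of degrees `d m - 1` -/
def Adm (d : Fin c → ℕ) (A : Fin c → MvPolynomial (Fin (n + 1)) L) : Prop :=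
  ∀ m I, coeff I (A m) ≠ 0 → I.degree + 1 = d m

end defs

section coefs
variable {L : Type} [Field L] {σ : Type} (v : Valuation L ℤᵐ⁰)

/-- the coefficients are bounded -/
def CB (G : MvPolynomial σ L) (b : ℤᵐ⁰) : Prop := ∀ I, v (coeff I G) ≤ b

theorem CB.mul {G H : MvPolynomial σ L} {b b' : ℤᵐ⁰} (hG : CB v G b) (hH : CB v H b') :
    CB v (G * H) (b * b') := by
  classical
  intro I
  rw [coeff_mul]
  refine v.map_sum_le fun q _ => ?_
  rw [map_mul]
  exact mul_le_mul' (hG _) (hH _)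

theorem CB.add {G H : MvPolynomial σ L} {b : ℤᵐ⁰} (hG : CB v G b) (hH : CB v H b) :
    CB v (G + H) b := by
  intro I
  rw [coeff_add]
  exact (v.map_add _ _).trans (max_le (hG I) (hH I))

theorem CB.sub {G H : MvPolynomial σ L} {b : ℤᵐ⁰} (hG : CB v G b) (hH : CB v H b) :
    CB v (G - H) b := by
  intro I
  rw [coeff_sub]
  exact (v.map_sub _ _).trans (max_le (hG I) (hH I))

theorem CB.mono {G : MvPolynomial σ L} {b b' : ℤᵐ⁰} (hG : CB v G b) (h : b ≤ b') :
    CB v G b' := fun I => (hG I).trans h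

theorem CB_CX (a : L) (i : σ) : CB v (C a * X i : MvPolynomial σ L) (v a) := by
  classical
  intro I
  rw [coeff_C_mul, coeff_X, map_mul]
  split_ifs
  · rw [map_one, mul_one]
  · rw [map_zero, mul_zero]
    exact zero_le

theorem CB_X (i : σ) : CB v (X i : MvPolynomial σ L) 1 := by
  have h := CB_CX v (1 : L) i
  rwa [C_1, one_mul, map_one] at h

end coefs

section sizes
variable {L : Type} [Field L] {n c : ℕ} {d : Fin c → ℕ} (D : DSys L n c d)
  (x : Fin (n + 1) → L)

theorem deg_mulT {A : Fin c → MvPolynomial (Fin (n + 1)) L} (hA : Adm d A)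
    {l : MvPolynomial (Fin (n + 1)) L} (hl : l.IsHomogeneous 1) (m : Fin c) :
    ∀ I ∈ (mulT A l m).support, I.degree = d m := by
  classical
  intro I hI
  rw [mem_support_iff] at hI
  unfold mulT at hI
  rw [coeff_mul] at hI
  obtain ⟨q, hq, hq'⟩ := Finset.exists_ne_zero_of_sum_ne_zero hI
  have h1 := hA m q.1 (left_ne_zero_of_mul hq')
  have h2 := hl (right_ne_zero_of_mul hq')
  have h3 : q.2.degree = 1 := by
    rw [Finsupp.degree_eq_weight_one]
    exact h2
  rw [Finset.HasAntidiagonal.mem_antidiagonal] at hq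
  rw [← hq, map_add, h3, h1]

theorem hom_lf (j0 i : Fin (n + 1)) : (lf x j0 i).IsHomogeneous 1 := by
  unfold lf
  refine (isHomogeneous_X L i).sub ?_
  simpa using (isHomogeneous_C _ (x i)).mul (isHomogeneous_X L j0)

theorem hom_CX (a : L) (i : Fin (n + 1)) :
    (C a * X i : MvPolynomial (Fin (n + 1)) L).IsHomogeneous 1 := by
  simpa using (isHomogeneous_C _ a).mul (isHomogeneous_X L i)

theorem hom_hT (y : Fin (n + 1) → L) (i j k : Fin (n + 1)) : (hT x y i j k).IsHomogeneous 1 :=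
  ((hom_CX _ _).sub (hom_CX _ _)).add (hom_CX _ _)

theorem VT_scale {iv : Fin (n + 1)} (hiv : x iv ≠ 0)
    (G : Fin c → MvPolynomial (Fin (n + 1)) L) :
    VT D x G - x iv • VT D ((x iv)⁻¹ • x) G ∈ Submodule.span L {x} := by
  rw [VT_apply, VT_apply, Finset.smul_sum, ← Finset.sum_sub_distrib]
  refine Submodule.sum_mem _ fun m _ => ?_
  rw [Submodule.mem_span_singleton]
  refine ⟨(∑ I ∈ (G m).support, coeff I (G m) * D.del m I (x iv)) * (x iv)⁻¹, ?_⟩
  funext p
  have h := Pool.Agent.Gen.H52.V_scale D (x iv) x ((x iv)⁻¹ • x) (fun p => by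
    rw [Pi.smul_apply, smul_eq_mul, ← mul_assoc, mul_inv_cancel₀ hiv, one_mul]) m (G m) p
  simp only [Pi.sub_apply, Pi.smul_apply, smul_eq_mul] at h ⊢
  rw [h]
  ring

theorem VT_bound (x' : Fin (n + 1) → L) (v : Valuation L ℤᵐ⁰) (M b : ℤᵐ⁰)
    (hdel : ∀ m I, I.degree = d m → ∀ f, v f ≤ 1 → v (D.del m I f) ≤ M)
    (hx' : ∀ p, v (x' p) ≤ 1) (G : Fin c → MvPolynomial (Fin (n + 1)) L)
    (hG : ∀ m, ∀ I ∈ (G m).support, I.degree = d m) (hb : ∀ m, CB v (G m) b) (p : Fin (n + 1)) :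
    v (VT D x' G p) ≤ b * M := by
  rw [VT_apply, Finset.sum_apply]
  exact v.map_sum_le fun m _ =>
    Pool.Agent.Gen.H52.V_bound D x' v M b hdel hx' m (G m) (hG m) (hb m) p

theorem v_smul_le {v : Valuation L ℤᵐ⁰} {iv : Fin (n + 1)} (hiv : x iv ≠ 0)
    (hle : ∀ j, v (x j) ≤ v (x iv)) (p : Fin (n + 1)) : v (((x iv)⁻¹ • x) p) ≤ 1 := by
  rw [Pi.smul_apply, smul_eq_mul, map_mul, map_inv₀]
  calc (v (x iv))⁻¹ * v (x p) ≤ (v (x iv))⁻¹ * v (x iv) := mul_le_mul' le_rfl (hle p)
    _ = 1 := inv_mul_cancel₀ ((map_ne_zero v).2 hiv)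

/-- the coefficients of `X_q F_p` -/
theorem CB_XF {v : Valuation L ℤᵐ⁰} {M : ℤᵐ⁰} {F : MvPolynomial (Fin (n + 1)) L}
    (hF : CB v F M) (p q : Fin (n + 1)) : CB v (X q * pderiv p F) M := by
  classical
  have h1 : CB v (pderiv p F) M := by
    intro I
    rw [coeff_pderiv, map_mul]
    calc _ ≤ M * 1 := mul_le_mul' (hF _) (by
          exact_mod_cast Pool.Agent.Gen.H52.v_natCast_le v _)
      _ = M := mul_one M
  have h2 := (CB_X v q).mul v h1
  rwa [one_mul] at h2

theorem deg_XF (m : Fin c) (p q : Fin (n + 1)) :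
    ∀ I ∈ (X q * pderiv p (D.F m)).support, I.degree = d m := by
  intro I hI
  rw [mem_support_iff] at hI
  have hdm : d m ≠ 0 := by
    intro h0'
    apply hI
    have hF := D.hom m
    rw [h0'] at hF
    have : D.F m = MvPolynomial.C (coeff 0 (D.F m)) := by
      rw [← totalDegree_eq_zero_iff_eq_C]
      exact Nat.le_zero.1 hF.totalDegree_le
    rw [this, pderiv_C, mul_zero, coeff_zero]
  have h1 : (X q * pderiv p (D.F m)).IsHomogeneous (1 + (d m - 1)) :=
    (isHomogeneous_X L q).mul (D.hom m).pderiv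
  have h2 := h1 hI
  have h3 : I.degree = Finsupp.weight 1 I := by
    rw [Finsupp.degree_eq_weight_one]
    rfl
  rw [h3, h2]
  omega

/-- the reduction of `W(p,q)` -/
theorem WT_red {v : Valuation L ℤᵐ⁰} {M : ℤᵐ⁰} (hM : 1 ≤ M)
    (hdel : ∀ m I, I.degree = d m → ∀ f, v f ≤ 1 → v (D.del m I f) ≤ M)
    (hF : ∀ m, CB v (D.F m) M) {iv : Fin (n + 1)} (hiv : x iv ≠ 0)
    (hle : ∀ j, v (x j) ≤ v (x iv)) (p q : Fin (n + 1)) :
    ∃ N : Fin (n + 1) → L, WT D x p q - x iv • N ∈ Submodule.span L {x} ∧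
      ∀ a, v (N a) ≤ M * M := by
  refine ⟨((x iv)⁻¹ • x) q • Pi.single p 1 +
    VT D ((x iv)⁻¹ • x) fun m => X q * pderiv p (D.F m), ?_, fun a => ?_⟩
  · have h := VT_scale D x hiv fun m => X q * pderiv p (D.F m)
    have h1 : WT D x p q - x iv • (((x iv)⁻¹ • x) q • Pi.single p 1 +
        VT D ((x iv)⁻¹ • x) fun m => X q * pderiv p (D.F m)) =
        (VT D x fun m => X q * pderiv p (D.F m)) -
        x iv • VT D ((x iv)⁻¹ • x) fun m => X q * pderiv p (D.F m) := by
      unfold WT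
      rw [smul_add, smul_smul, Pi.smul_apply, smul_eq_mul, ← mul_assoc, mul_inv_cancel₀ hiv,
        one_mul]
      abel
    rw [h1]
    exact h
  · rw [Pi.add_apply]
    refine (v.map_add _ _).trans (max_le ?_ ?_)
    · rw [Pi.smul_apply, smul_eq_mul, map_mul]
      refine mul_le_mul' ((v_smul_le x hiv hle q).trans hM) ?_
      refine le_trans ?_ hM
      by_cases hp : a = p
      · subst hp; simp
      · rw [Pi.single_eq_of_ne hp, map_zero]; exact zero_le
    · exact VT_bound D _ v M M hdel (v_smul_le x hiv hle) _ (fun m => deg_XF D m p q)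
        (fun m => CB_XF (hF m) p q) a

variable {ι : Type} [Fintype ι] [DecidableEq ι]

/-- the local estimate -/
theorem local_bound (v : Valuation L ℤᵐ⁰) (M : ℤᵐ⁰)
    (hdel : ∀ m I, I.degree = d m → ∀ f, v f ≤ 1 → v (D.del m I f) ≤ M)
    {iv : Fin (n + 1)} (hiv : x iv ≠ 0) (hle : ∀ j, v (x j) ≤ v (x iv))
    (K : ι → Fin (n + 1) → L) (k0 : ι) (hk0 : K k0 = x) (ρ : ι → ℕ)
    (N : ι → Fin (n + 1) → L) (τ : ι → L) (σ : ι → ℤᵐ⁰)
    (hred : ∀ k, K k - (τ k * x iv) • N k ∈ Submodule.span L {u | ∃ k', ρ k' < ρ k ∧ K k' = u})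
    (hN : ∀ k a, v (N k a) ≤ σ k) (e : ι ⊕ Fin c ≃ Fin (n + 1)) (μ : L)
    (hμ : Matrix.det (Matrix.of fun a k => colU D x K iv k (e a)) = μ * x iv ^ (∑ m, d m)) :
    v μ * v (x iv) ^ (∑ m, d m) ≤ v (x iv) ^ (n + 1) * (∏ k, v (τ k) * σ k) * M ^ c := by
  have h1 := locdet' e v (colU D x K iv)
    (Sum.elim N fun m => D.V ((x iv)⁻¹ • x) m (X iv ^ d m))
    (Sum.elim (fun k => τ k * x iv) fun _ => x iv)
    (Sum.elim ρ fun _ => Finset.univ.sup ρ + 1) (Sum.elim σ fun _ => M) ?_ ?_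
  · rw [hμ, map_mul, map_pow, Fintype.prod_sum_type] at h1
    simp only [Sum.elim_inl, Sum.elim_inr] at h1
    refine h1.trans (le_of_eq ?_)
    have hcard : Fintype.card ι + c = n + 1 := by
      have := Fintype.card_congr e
      rw [Fintype.card_sum, Fintype.card_fin, Fintype.card_fin] at this
      exact this
    have e1 : ∏ k, v (τ k * x iv) * σ k = (∏ k, v (τ k) * σ k) * v (x iv) ^ Fintype.card ι := by
      rw [← Finset.card_univ, ← Finset.prod_const, ← Finset.prod_mul_distrib]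
      exact Finset.prod_congr rfl fun k _ => by rw [map_mul, mul_right_comm]
    rw [e1, Finset.prod_const, Finset.card_univ, Fintype.card_fin, mul_pow, ← hcard, pow_add]
    rw [mul_comm (∏ k, v (τ k) * σ k), mul_assoc, mul_assoc, mul_assoc,
      mul_left_comm (∏ k, v (τ k) * σ k)]
  · rintro (k | m)
    · simp only [Sum.elim_inl, colU]
      refine Submodule.span_mono ?_ (hred k)
      rintro _ ⟨k', hk', rfl⟩
      exact ⟨Sum.inl k', hk', rfl⟩
    · simp only [Sum.elim_inr, colU]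
      have h2 : D.V x m (X iv ^ d m) - x iv • D.V ((x iv)⁻¹ • x) m (X iv ^ d m) ∈
          Submodule.span L {x} := by
        have h3 := VT_scale D x hiv (Pi.single m (X iv ^ d m))
        have h4 : ∀ x' : Fin (n + 1) → L, VT D x' (Pi.single m (X iv ^ d m)) =
            D.V x' m (X iv ^ d m) := by
          intro x'
          rw [VT_apply, Finset.sum_eq_single m]
          · rw [Pi.single_eq_same]
          · intro b _ hb
            rw [Pi.single_eq_of_ne hb, map_zero]
          · intro h; exact absurd (Finset.mem_univ m) h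
        rwa [h4, h4] at h3
      refine Submodule.span_mono ?_ h2
      rintro _ rfl
      refine ⟨Sum.inl k0, ?_, hk0⟩
      exact Nat.lt_succ_of_le (Finset.le_sup (f := ρ) (Finset.mem_univ k0))
  · rintro (k | m) a
    · exact hN k a
    · simp only [Sum.elim_inr]
      rw [X_pow_eq_monomial, D.V_monomial, one_mul]
      refine hdel m _ ?_ _ (v_smul_le x hiv hle a)
      rw [Finsupp.degree_single]

end sizes

end Pool.Agent.Sharp
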